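import Mathlib
import Pool.Agent.R389.Defs
import Pool.Agent.H302R2.QF

/-!
# Elliptic curves over `ℚ`: Artin twists of the L-function at `s = 1`, and Deligne's periods
-/

set_option autoImplicit false

open NumberField Filter Topology

namespace Pool.Agent.U213.EC

/-- An elliptic curve `A` over `ℚ` with its periods, and an embedding in `ℂ` of the number field `F`, which
is Galois over `ℚ`. -/
structure Data (F : Type) [Field F] [NumberField F] [IsGalois ℚ F] where
  /-- the elliptic curve `A` : a Weierstrass equation over `ℤ` -/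
  W : WeierstrassCurve ℤ
  Δ_ne : W.Δ ≠ 0
  /-- the lattice of the periods of `dx / (2 y + a₁ x + a₃)` -/
  L : PeriodPair
  g₂_eq : 12 * L.g₂ = W.c₄
  g₃_eq : 216 * L.g₃ = W.c₆
  /-- a nonzero real period -/
  Ωp : ℂ
  Ωp_mem : Ωp ∈ L.lattice
  Ωp_im : Ωp.im = 0
  Ωp_ne : Ωp ≠ 0
  /-- a nonzero purely imaginary period -/
  Ωm : ℂ
  Ωm_mem : Ωm ∈ L.lattice
  Ωm_re : Ωm.re = 0
  Ωm_ne : Ωm ≠ 0
  /-- an embedding of `F` in `ℂ` -/
  ι : F →+* ℂ
  /-- complex conjugation as an element of the Galois group -/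
  c : F ≃ₐ[ℚ] F
  ι_c : ∀ x, ι (c x) = starRingEnd ℂ (ι x)
  /-- an element of `F` with nonzero resolvents, for example a generator of a normal basis -/
  x : F
  x_ne : ∀ lam : (F ≃ₐ[ℚ] F) →* ℂˣ, ∑ᶠ σ, (lam σ : ℂ) * ι (σ x) ≠ 0
  /-- a finite set of prime numbers which contains the prime numbers at which the equation has bad
  reduction and those which ramify in `F` -/
  S : Finset ℕ
  bad : ∀ p : ℕ, p.Prime → (p : ℤ) ∣ W.Δ → p ∈ S
  ram : ∀ p : ℕ, p.Prime → (p : ℤ) ∣ discr F → p ∈ S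
  /-- an arithmetic Frobenius at `p`: for a prime ideal `Q` above `p` it satisfies
  `Frob_p y ≡ y ^ p` modulo `Q` for all integers `y` of `F` -/
  frob : ℕ → (F ≃ₐ[ℚ] F)
  isFrob : ∀ p : ℕ, p.Prime → p ∉ S → ∃ Q : Ideal (𝓞 F), Q.IsPrime ∧ (p : 𝓞 F) ∈ Q ∧
    ∀ y : 𝓞 F, ∃ z ∈ Q, frob p (y : F) = (y : F) ^ p + (z : F)

namespace Data

variable {F : Type} [Field F] [NumberField F] [IsGalois ℚ F] (D : Data F)

/-- the Galois group of `F` over `ℚ` -/
abbrev G (_ : Data F) : Type := F ≃ₐ[ℚ] F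

/-- `A` has complex multiplication -/
def CM : Prop := ∃ α : ℂ, α.im ≠ 0 ∧ ∀ z ∈ D.L.lattice, α * z ∈ D.L.lattice

/-- `a_p`: the number `p` minus the number of the solutions of the equation modulo `p` -/
noncomputable def ap (p : ℕ) : ℤ :=
  p - Nat.card {P : ZMod p × ZMod p //
    (D.W.map (Int.castRingHom (ZMod p))).toAffine.Equation P.1 P.2}

/-- `α ^ k + β ^ k` for the roots `α`, `β` of `X ^ 2 - a_p X + p` -/
noncomputable def tr (p : ℕ) : ℕ → ℤ
  | 0 => 2
  | 1 => D.ap p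
  | k + 2 => D.ap p * tr p (k + 1) - p * tr p k

/-- the prime numbers outside `S` -/
abbrev Pr : Type := {p : ℕ // p.Prime ∧ p ∉ D.S}

/-- **The twisted L-function.** `ℓ` is the function `L(A, f, s)` for the character `f` of `G`, without
the Euler factors at the primes in `S`: it is meromorphic on `ℂ`, and for `Re s > 3/2` it is the
exponential of the sum of `(α_p ^ k + β_p ^ k) f(Frob_p ^ k) p ^ (-k s) / k` over the prime numbers
`p ∉ S` and the integers `k ≥ 1`, that is, the product of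
`det (1 - Frob_p p ^ (-s))⁻¹` on (the Tate module of `A`) ⊗ (the representation of character `f`). -/
def IsL (f : (F ≃ₐ[ℚ] F) → ℂ) (ℓ : ℂ → ℂ) : Prop :=
  (∀ s, MeromorphicAt ℓ s) ∧ ∀ s : ℂ, 3 / 2 < s.re → ∃ z : ℂ, ℓ s = Complex.exp z ∧
    HasSum (fun q : D.Pr × ℕ => (D.tr q.1 (q.2 + 1) : ℂ) * f (D.frob q.1 ^ (q.2 + 1)) *
      ((q.1 : ℕ) : ℂ) ^ (-((q.2 + 1 : ℕ) : ℂ) * s) / ((q.2 + 1 : ℕ) : ℂ)) z

/-- the resolvent (Gauss sum) of a linear character of `G` -/
noncomputable def R (lam : (F ≃ₐ[ℚ] F) → ℂ) : ℂ := ∑ᶠ σ, lam σ * D.ι (σ D.x)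

/-- **Deligne's period** of `h¹(A) ⊗ ρ` at `s = 1`, for a complex representation `ρ` of `G`:
`R(det ρ) Ω₊ ^ d⁺ Ω₋ ^ d⁻`, where `d⁺` and `d⁻` are the multiplicities of the eigenvalues `1` and `-1` of
complex conjugation. -/
noncomputable def period {n : ℕ} (ρ : (F ≃ₐ[ℚ] F) →* Matrix (Fin n) (Fin n) ℂ) : ℂ :=
  D.R (fun σ => (ρ σ).det) * D.Ωp ^ (ρ D.c).charpoly.rootMultiplicity 1 *
    D.Ωm ^ (ρ D.c).charpoly.rootMultiplicity (-1)

/-- **Deligne's conjecture** for `h¹(A) ⊗ ρ` at `s = 1`, for a representation `ρ` of `G` over the number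
field `E`: for some `e ∈ E` and all embeddings `τ` of `E` in `ℂ` the number `L(A, τρ, 1)` is `τ(e)` times
the period of `τρ`. -/
def Deligne {E : Type} [Field E] {n : ℕ} (ρ : (F ≃ₐ[ℚ] F) →* Matrix (Fin n) (Fin n) E) : Prop :=
  ∃ e : E, ∀ τ : E →+* ℂ, ∃ ℓ : ℂ → ℂ, D.IsL (fun σ => τ (ρ σ).trace) ℓ ∧
    Tendsto ℓ (𝓝[≠] 1) (𝓝 (τ e * D.period (τ.mapMatrix.toMonoidHom.comp ρ)))

open Classical in
/-- the character of the regular representation; its L-function is the one of `A` over `F` -/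
noncomputable def reg (_ : Data F) (σ : F ≃ₐ[ℚ] F) : ℂ := if σ = 1 then (Nat.card (F ≃ₐ[ℚ] F) : ℂ) else 0

end Data

/-- The known case (Blasius, Harder, Kings–Sprang, Kufner: Deligne's conjecture for the critical values of
Hecke L-functions): if `A` has complex multiplication, then Deligne's conjecture holds for `h¹(A) ⊗ ρ` for
the representations `ρ` induced from linear characters `ψ` of subgroups `U` of `G`. -/
def MonomialTheorem : Prop :=
  ∀ (F : Type) [Field F] [NumberField F] [IsGalois ℚ F] (D : Data F), D.CM →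
    ∀ (E : Type) [Field E] [NumberField E] (U : Subgroup (F ≃ₐ[ℚ] F)) (ψ : U →* Eˣ) (n : ℕ)
    (ρ : (F ≃ₐ[ℚ] F) →* Matrix (Fin n) (Fin n) E),
    (∀ σ, (ρ σ).trace = R389.ind U (fun u => ((ψ u : Eˣ) : E)) σ) → D.Deligne ρ

/-- Known (Hecke's functional equation, and the root number of a symplectic twist is `1`): if `A` has
complex multiplication, then the order at `s = 1` of the L-function of `A` over the fixed field of a
subgroup `H` of `G`, twisted by the two-dimensional character of a quaternion quotient of `H`, is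
even. -/
def SymplecticParity : Prop :=
  ∀ (F : Type) [Field F] [NumberField F] [IsGalois ℚ F] (D : Data F), D.CM →
    ∀ (H : Subgroup (F ≃ₐ[ℚ] F)) (f : H →* QuaternionGroup 2), Function.Surjective f →
    ∀ ℓ : ℂ → ℂ, D.IsL (R389.ind H (fun h => H302R2.quatChar (f h))) ℓ →
      ∃ k : ℤ, meromorphicOrderAt ℓ 1 = ((2 * k : ℤ) : WithTop ℤ)

end Pool.Agent.U213.EC
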