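import Mathlib

/-!
# Eigenvalues of matrices of finite order and traces of their powers
-/

set_option autoImplicit false

namespace Pool.Agent.U213.EC

open Polynomial

variable {n : ℕ}

lemma card_roots_charpoly (A : Matrix (Fin n) (Fin n) ℂ) : A.charpoly.roots.card = n := by
  rw [splits_iff_card_roots.mp (IsAlgClosed.splits A.charpoly), Matrix.charpoly_natDegree_eq_dim,
    Fintype.card_fin]

lemma prod_roots_charpoly (A : Matrix (Fin n) (Fin n) ℂ) (s : ℂ) :
    (A.charpoly.roots.map (fun r => s - r)).prod = (A.charpoly).eval s := by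
  have h := (IsAlgClosed.splits A.charpoly).eq_prod_roots_of_monic A.charpoly_monic
  conv_rhs => rw [h]
  rw [eval_multiset_prod, Multiset.map_map]
  congr 1
  refine Multiset.map_congr rfl fun r _ => ?_
  simp

lemma det_sub (A : Matrix (Fin n) (Fin n) ℂ) (s : ℂ) :
    (A - algebraMap ℂ _ s).det = (A.charpoly.roots.map (fun r => r - s)).prod := by
  have h1 : (algebraMap ℂ _ s - A).det = (A.charpoly.roots.map (fun r => s - r)).prod := by
    rw [prod_roots_charpoly, Matrix.eval_charpoly]
    rfl
  have h2 : A - algebraMap ℂ _ s = -(algebraMap ℂ _ s - A) := by abel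
  rw [h2, Matrix.det_neg, h1, Fintype.card_fin]
  have h3 : (A.charpoly.roots.map (fun r => r - s)) =
      (A.charpoly.roots.map (fun r => (-1) * (s - r))) :=
    Multiset.map_congr rfl fun r _ => by ring
  rw [h3, Multiset.prod_map_mul, Multiset.map_const', Multiset.prod_replicate, card_roots_charpoly]

theorem det_aeval (A : Matrix (Fin n) (Fin n) ℂ) (p : ℂ[X]) :
    (aeval A p).det = (A.charpoly.roots.map (fun r => p.eval r)).prod := by
  have h := (IsAlgClosed.splits p).eq_prod_roots
  have key : ∀ (s : Multiset ℂ) (a : ℂ),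
      (aeval A (C a * (s.map (fun b => X - C b)).prod)).det
        = (A.charpoly.roots.map (fun r => (C a * (s.map (fun b => X - C b)).prod).eval r)).prod := by
    intro s a
    induction s using Multiset.induction with
    | empty =>
      simp only [Multiset.map_zero, Multiset.prod_zero, mul_one, aeval_C, eval_C]
      rw [Multiset.map_const', Multiset.prod_replicate, card_roots_charpoly,
        Matrix.algebraMap_eq_diagonal, Matrix.det_diagonal]
      simp
    | cons b s ih =>
      have h1 : C a * ((b ::ₘ s).map (fun b => X - C b)).prod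
          = (X - C b) * (C a * (s.map (fun b => X - C b)).prod) := by
        rw [Multiset.map_cons, Multiset.prod_cons]; ring
      rw [h1, map_mul, Matrix.det_mul, ih]
      simp only [eval_mul, Multiset.prod_map_mul]
      congr 1
      rw [map_sub, aeval_X, aeval_C, det_sub]
      congr 1
      refine Multiset.map_congr rfl fun r _ => ?_
      simp
  conv_lhs => rw [h]
  conv_rhs => rw [h]
  exact key _ _

/-- the trace of a power is the sum of the powers of the eigenvalues -/
theorem trace_pow_eq (A : Matrix (Fin n) (Fin n) ℂ) (i : ℕ) :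
    (A ^ i).trace = (A.charpoly.roots.map (fun r => r ^ i)).sum := by
  have h1 : (A ^ i).charpoly = (A.charpoly.roots.map (fun r => X - C (r ^ i))).prod := by
    refine Polynomial.funext fun t => ?_
    rw [Matrix.eval_charpoly, eval_multiset_prod, Multiset.map_map]
    have h2 : Matrix.scalar (Fin n) t - A ^ i = aeval A (C t - X ^ i) := by
      rw [map_sub, aeval_C, map_pow, aeval_X, Matrix.algebraMap_eq_diagonal]
      rfl
    rw [h2, det_aeval]
    congr 1
    refine Multiset.map_congr rfl fun r _ => ?_
    simp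
  have h2 : (A ^ i).charpoly.roots = A.charpoly.roots.map (fun r => r ^ i) := by
    rw [h1]
    have h3 : (A.charpoly.roots.map (fun r => X - C (r ^ i)))
        = ((A.charpoly.roots.map (fun r => r ^ i)).map (fun a => X - C a)) := by
      rw [Multiset.map_map]; rfl
    rw [h3, roots_multiset_prod_X_sub_C]
  rw [Matrix.trace_eq_sum_roots_charpoly, h2]

/-- the eigenvalues of a matrix of finite order -/
lemma pow_eq_one_of_mem {A : Matrix (Fin n) (Fin n) ℂ} {N : ℕ} (hA : A ^ N = 1) {r : ℂ}
    (hr : r ∈ A.charpoly.roots) : r ^ N = 1 := by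
  have h1 : r ∈ spectrum ℂ A := by
    rw [Matrix.mem_spectrum_iff_isRoot_charpoly]
    exact isRoot_of_mem_roots hr
  have h2 := spectrum.subset_polynomial_aeval A (X ^ N - 1 : ℂ[X]) ⟨r, h1, rfl⟩
  rw [map_sub, map_pow, aeval_X, map_one, hA, sub_self] at h2
  rcases Nat.eq_zero_or_pos n with hn | hn
  · subst hn
    have h3 := card_roots_charpoly A
    rw [Multiset.card_eq_zero] at h3
    rw [h3] at hr
    exact absurd hr (Multiset.notMem_zero r)
  · have : Nonempty (Fin n) := ⟨⟨0, hn⟩⟩
    rw [spectrum.zero_eq, Set.mem_singleton_iff] at h2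
    simpa [sub_eq_zero] using h2

/-- orthogonality of roots of unity -/
lemma sum_pow_root {N : ℕ} {w : ℂ} (hw : w ^ N = 1) :
    ∑ i ∈ Finset.range N, w ^ i = if w = 1 then (N : ℂ) else 0 := by
  split_ifs with h
  · subst h; simp
  · have h1 := mul_geom_sum w N
    rw [hw, sub_self] at h1
    exact (mul_eq_zero.mp h1).resolve_left (sub_ne_zero.mpr h)

/-- **The multiplicity of an eigenvalue** of a matrix of finite order. -/
theorem mult_eq {A : Matrix (Fin n) (Fin n) ℂ} {N : ℕ} (hN : 0 < N) (hA : A ^ N = 1) {z : ℂ}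
    (hz : z ^ N = 1) :
    ∑ i ∈ Finset.range N, (A ^ i).trace * z⁻¹ ^ i = N * (A.charpoly.rootMultiplicity z : ℂ) := by
  have hz0 : z ≠ 0 := by
    rintro rfl
    rw [zero_pow hN.ne'] at hz
    exact zero_ne_one hz
  have h1 : ∀ i, (A ^ i).trace * z⁻¹ ^ i = (A.charpoly.roots.map (fun r => (r * z⁻¹) ^ i)).sum := by
    intro i
    rw [trace_pow_eq, ← Multiset.sum_map_mul_right]
    congr 1
    refine Multiset.map_congr rfl fun r _ => ?_
    rw [mul_pow]
  simp only [h1]
  have h2 : ∑ i ∈ Finset.range N, (A.charpoly.roots.map (fun r => (r * z⁻¹) ^ i)).sum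
      = (A.charpoly.roots.map (fun r => ∑ i ∈ Finset.range N, (r * z⁻¹) ^ i)).sum :=
    Multiset.sum_map_sum_map _ _
  have h3 : A.charpoly.roots.map (fun r => ∑ i ∈ Finset.range N, (r * z⁻¹) ^ i)
      = A.charpoly.roots.map (fun r => if r = z then (N : ℂ) else 0) := by
    refine Multiset.map_congr rfl fun r hr => ?_
    rw [sum_pow_root (N := N) (by rw [mul_pow, inv_pow, pow_eq_one_of_mem hA hr, hz, inv_one, mul_one])]
    congr 1
    rw [eq_iff_iff]
    exact mul_inv_eq_one₀ hz0
  have h4 : ∀ s : Multiset ℂ, (s.map (fun r => if r = z then (N : ℂ) else 0)).sum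
      = N * (s.count z : ℂ) := by
    intro s
    induction s using Multiset.induction with
    | empty => simp
    | cons b s ih =>
      rw [Multiset.map_cons, Multiset.sum_cons, ih, Multiset.count_cons]
      by_cases hb : b = z
      · rw [if_pos hb, if_pos hb.symm]; push_cast; ring
      · rw [if_neg hb, if_neg (Ne.symm hb)]; push_cast; ring
  rw [h2, h3, h4, count_roots]

/-- the determinant as a product over the eigenvalues -/
theorem det_eq {A : Matrix (Fin n) (Fin n) ℂ} {N : ℕ} (hN : 0 < N) (hA : A ^ N = 1) :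
    A.det = ∏ z ∈ nthRootsFinset N (1 : ℂ), z ^ A.charpoly.rootMultiplicity z := by
  classical
  rw [Matrix.det_eq_prod_roots_charpoly, Finset.prod_multiset_count]
  simp only [count_roots]
  refine Finset.prod_subset ?_ ?_
  · intro z hz
    rw [mem_nthRootsFinset hN]
    exact pow_eq_one_of_mem hA (Multiset.mem_toFinset.mp hz)
  · intro z _ hz
    rw [Multiset.mem_toFinset, ← Multiset.count_pos, count_roots, not_lt, Nat.le_zero] at hz
    rw [hz, pow_zero]

end Pool.Agent.U213.EC
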