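import Mathlib
import Pool.Agent.U213.EC.Eig

/-!
# Multiplicities of eigenvalues and determinants in terms of characters
-/

set_option autoImplicit false
set_option linter.unusedSectionVars false

namespace Pool.Agent.U213.EC

open Polynomial

variable {G : Type} [Group G] {E : Type} [Field E]

/-- The multiplicities of the eigenvalues are determined by the character. -/
lemma mult_transfer {n n' : ℕ} (τ τ' : E →+* ℂ) (F : G → E) (ρ : G →* Matrix (Fin n) (Fin n) ℂ)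
    (ρ' : G →* Matrix (Fin n') (Fin n') ℂ) (h : ∀ g, τ (F g) = (ρ g).trace)
    (h' : ∀ g, τ' (F g) = (ρ' g).trace) {g : G} {N : ℕ} (hN : 0 < N) (hg : g ^ N = 1) {w : E}
    (hw : w ^ N = 1) :
    (ρ g).charpoly.rootMultiplicity (τ w) = (ρ' g).charpoly.rootMultiplicity (τ' w) := by
  have h1 := mult_eq hN (A := ρ g) (by rw [← map_pow, hg, map_one]) (z := τ w)
    (by rw [← map_pow, hw, map_one])
  have h2 := mult_eq hN (A := ρ' g) (by rw [← map_pow, hg, map_one]) (z := τ' w)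
    (by rw [← map_pow, hw, map_one])
  have h3 : τ (∑ i ∈ Finset.range N, F (g ^ i) * w⁻¹ ^ i)
      = N * ((ρ g).charpoly.rootMultiplicity (τ w) : ℂ) := by
    rw [← h1, map_sum]
    refine Finset.sum_congr rfl fun i _ => ?_
    rw [map_mul, h, map_pow, map_pow, map_inv₀]
  have h4 : τ' (∑ i ∈ Finset.range N, F (g ^ i) * w⁻¹ ^ i)
      = N * ((ρ' g).charpoly.rootMultiplicity (τ' w) : ℂ) := by
    rw [← h2, map_sum]
    refine Finset.sum_congr rfl fun i _ => ?_
    rw [map_mul, h', map_pow, map_pow, map_inv₀]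
  have h5 : ∑ i ∈ Finset.range N, F (g ^ i) * w⁻¹ ^ i
      = ((N * (ρ g).charpoly.rootMultiplicity (τ w) : ℕ) : E) := by
    apply τ.injective
    rw [h3, map_natCast]
    push_cast
    rfl
  rw [h5, map_natCast] at h4
  have h6 : N * (ρ g).charpoly.rootMultiplicity (τ w)
      = N * (ρ' g).charpoly.rootMultiplicity (τ' w) := by
    exact_mod_cast h4
  exact Nat.eq_of_mul_eq_mul_left hN h6

/-- The multiplicities of the eigenvalues are additive. -/
lemma mult_sum {n : ℕ} (ρ : G →* Matrix (Fin n) (Fin n) ℂ) {J : Type*} (s : Finset J) (m : J → ℕ)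
    (d : J → ℕ) (r : ∀ j, G →* Matrix (Fin (d j)) (Fin (d j)) ℂ)
    (h : ∀ g, (ρ g).trace = ∑ j ∈ s, (m j : ℂ) * (r j g).trace) {g : G} {N : ℕ} (hN : 0 < N)
    (hg : g ^ N = 1) {z : ℂ} (hz : z ^ N = 1) :
    (ρ g).charpoly.rootMultiplicity z
      = ∑ j ∈ s, m j * (r j g).charpoly.rootMultiplicity z := by
  have h1 := mult_eq hN (A := ρ g) (by rw [← map_pow, hg, map_one]) hz
  have h2 : ∀ j, ∑ i ∈ Finset.range N, (r j g ^ i).trace * z⁻¹ ^ i
      = N * ((r j g).charpoly.rootMultiplicity z : ℂ) := fun j =>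
    mult_eq hN (by rw [← map_pow, hg, map_one]) hz
  have h3 : (N : ℂ) * ((ρ g).charpoly.rootMultiplicity z : ℂ)
      = N * ((∑ j ∈ s, m j * (r j g).charpoly.rootMultiplicity z : ℕ) : ℂ) := by
    rw [← h1]
    push_cast
    rw [Finset.mul_sum]
    have h4 : ∀ i ∈ Finset.range N, (ρ g ^ i).trace * z⁻¹ ^ i
        = ∑ j ∈ s, (m j : ℂ) * ((r j g ^ i).trace * z⁻¹ ^ i) := by
      intro i _
      rw [← map_pow, h, Finset.sum_mul]
      refine Finset.sum_congr rfl fun j _ => ?_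
      rw [map_pow, mul_assoc]
    rw [Finset.sum_congr rfl h4, Finset.sum_comm]
    refine Finset.sum_congr rfl fun j _ => ?_
    rw [← Finset.mul_sum, h2]
    ring
  have h4 : (N : ℂ) ≠ 0 := by exact_mod_cast hN.ne'
  exact_mod_cast mul_left_cancel₀ h4 h3

/-- The determinants are multiplicative. -/
lemma det_prod {n : ℕ} (ρ : G →* Matrix (Fin n) (Fin n) ℂ) {J : Type*} (s : Finset J) (m : J → ℕ)
    (d : J → ℕ) (r : ∀ j, G →* Matrix (Fin (d j)) (Fin (d j)) ℂ)
    (h : ∀ g, (ρ g).trace = ∑ j ∈ s, (m j : ℂ) * (r j g).trace) {g : G} {N : ℕ} (hN : 0 < N)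
    (hg : g ^ N = 1) : (ρ g).det = ∏ j ∈ s, (r j g).det ^ m j := by
  rw [det_eq hN (by rw [← map_pow, hg, map_one])]
  have h1 : ∀ j ∈ s, (r j g).det ^ m j
      = ∏ z ∈ nthRootsFinset N (1 : ℂ), z ^ (m j * (r j g).charpoly.rootMultiplicity z) := by
    intro j _
    rw [det_eq hN (by rw [← map_pow, hg, map_one]), ← Finset.prod_pow]
    refine Finset.prod_congr rfl fun z _ => ?_
    rw [← pow_mul, mul_comm]
  rw [Finset.prod_congr rfl h1, Finset.prod_comm]
  refine Finset.prod_congr rfl fun z hz => ?_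
  rw [Finset.prod_pow_eq_pow_sum, mult_sum ρ s m d r h hN hg ((mem_nthRootsFinset hN _).mp hz)]

/-- reindexing the roots of unity -/
lemma prod_roots {ζ : E} {N : ℕ} (hN : 0 < N) (hζ : IsPrimitiveRoot ζ N) (τ : E →+* ℂ) (k : ℂ → ℕ) :
    ∏ z ∈ nthRootsFinset N (1 : ℂ), z ^ k z
      = τ (∏ w ∈ nthRootsFinset N (1 : E), w ^ k (τ w)) := by
  classical
  rw [map_prod]
  refine (Finset.prod_bij (fun w _ => τ w) ?_ ?_ ?_ ?_).symm
  · intro w hw
    rw [mem_nthRootsFinset hN] at hw ⊢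
    rw [← map_pow, hw, map_one]
  · intro a _ b _ hab
    exact τ.injective hab
  · intro z hz
    rw [mem_nthRootsFinset hN] at hz
    have h3 : IsPrimitiveRoot (τ ζ) N := hζ.map_of_injective τ.injective
    have : NeZero N := ⟨hN.ne'⟩
    obtain ⟨i, -, hi⟩ := h3.eq_pow_of_pow_eq_one hz
    refine ⟨ζ ^ i, ?_, by rw [map_pow, hi]⟩
    rw [mem_nthRootsFinset hN, ← pow_mul, mul_comm, pow_mul, hζ.pow_eq_one, one_pow]
  · intro w _
    rw [map_pow]

/-- **The determinant of the representations with a given character.** -/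
lemma det_lift {ζ : E} {N : ℕ} (hN : 0 < N) (hζ : IsPrimitiveRoot ζ N) (hG : ∀ g : G, g ^ N = 1)
    (τ₀ : E →+* ℂ) (F : G → E) {n₀ : ℕ} (ρ₀ : G →* Matrix (Fin n₀) (Fin n₀) ℂ)
    (h₀ : ∀ g, τ₀ (F g) = (ρ₀ g).trace) :
    ∃ lam : G →* Eˣ, ∀ (τ : E →+* ℂ) (n : ℕ) (ρ : G →* Matrix (Fin n) (Fin n) ℂ),
      (∀ g, τ (F g) = (ρ g).trace) → ∀ g, (ρ g).det = τ ((lam g : Eˣ) : E) := by
  classical
  let d : G → E := fun g => ∏ w ∈ nthRootsFinset N (1 : E),
    w ^ (ρ₀ g).charpoly.rootMultiplicity (τ₀ w)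
  have hd : ∀ (τ : E →+* ℂ) (n : ℕ) (ρ : G →* Matrix (Fin n) (Fin n) ℂ),
      (∀ g, τ (F g) = (ρ g).trace) → ∀ g, (ρ g).det = τ (d g) := by
    intro τ n ρ h g
    rw [det_eq hN (by rw [← map_pow, hG, map_one]),
      prod_roots hN hζ τ (fun z => (ρ g).charpoly.rootMultiplicity z)]
    congr 1
    refine Finset.prod_congr rfl fun w hw => ?_
    rw [mult_transfer τ τ₀ F ρ ρ₀ h h₀ hN (hG g) ((mem_nthRootsFinset hN _).mp hw)]
  let D : G →* E :=
    { toFun := d
      map_one' := by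
        apply τ₀.injective
        rw [← hd τ₀ n₀ ρ₀ h₀, map_one, Matrix.det_one, map_one]
      map_mul' := by
        intro a b
        apply τ₀.injective
        rw [← hd τ₀ n₀ ρ₀ h₀, map_mul, Matrix.det_mul, map_mul, ← hd τ₀ n₀ ρ₀ h₀,
          ← hd τ₀ n₀ ρ₀ h₀] }
  refine ⟨D.toHomUnits, fun τ n ρ h g => ?_⟩
  rw [hd τ n ρ h g]
  rfl

end Pool.Agent.U213.EC
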