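import Mathlib

/-!
# Products of resolvents
-/

set_option autoImplicit false

namespace Pool.Agent.U213.EC

open TensorProduct

variable {K : Type} [Field K] [NumberField K] [IsGalois ℚ K] {E : Type} [Field E] [CharZero E]

/-- the action of the Galois group on the second factor -/
noncomputable def act (g : K ≃ₐ[ℚ] K) : E ⊗[ℚ] K →ₐ[E] E ⊗[ℚ] K :=
  Algebra.TensorProduct.map (AlgHom.id E E) (g : K →ₐ[ℚ] K)

lemma act_tmul (g : K ≃ₐ[ℚ] K) (e : E) (y : K) : act g (e ⊗ₜ[ℚ] y) = e ⊗ₜ[ℚ] g y := rfl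

lemma avg (v : E ⊗[ℚ] K) : ∃ e : E, ∑ g : K ≃ₐ[ℚ] K, act g v = e ⊗ₜ[ℚ] 1 := by
  induction v using TensorProduct.induction_on with
  | zero => exact ⟨0, by simp⟩
  | tmul e y =>
    refine ⟨Algebra.trace ℚ K y • e, ?_⟩
    simp only [act_tmul]
    rw [← TensorProduct.tmul_sum, ← trace_eq_sum_automorphisms, Algebra.algebraMap_eq_smul_one,
      TensorProduct.tmul_smul, TensorProduct.smul_tmul']
  | add a b ha hb =>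
    obtain ⟨e, he⟩ := ha
    obtain ⟨e', he'⟩ := hb
    refine ⟨e + e', ?_⟩
    simp only [map_add]
    rw [Finset.sum_add_distrib, he, he', TensorProduct.add_tmul]

lemma fixed {v : E ⊗[ℚ] K} (hv : ∀ g : K ≃ₐ[ℚ] K, act g v = v) : ∃ e : E, v = e ⊗ₜ[ℚ] 1 := by
  obtain ⟨e, he⟩ := avg v
  have h1 : ∑ g : K ≃ₐ[ℚ] K, act g v = (Nat.card (K ≃ₐ[ℚ] K) : E) • v := by
    rw [Finset.sum_congr rfl (fun g _ => hv g), Finset.sum_const, Finset.card_univ,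
      Nat.card_eq_fintype_card, Nat.cast_smul_eq_nsmul]
  have hc : (Nat.card (K ≃ₐ[ℚ] K) : E) ≠ 0 := by
    have : 0 < Nat.card (K ≃ₐ[ℚ] K) := Nat.card_pos
    exact_mod_cast this.ne'
  refine ⟨(Nat.card (K ≃ₐ[ℚ] K) : E)⁻¹ * e, ?_⟩
  have h2 : v = (Nat.card (K ≃ₐ[ℚ] K) : E)⁻¹ • (e ⊗ₜ[ℚ] (1 : K)) := by
    rw [← he, h1, smul_smul, inv_mul_cancel₀ hc, one_smul]
  rw [h2, TensorProduct.smul_tmul', smul_eq_mul]

/-- the resolvent in the tensor product -/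
noncomputable def res (x : K) (lam : (K ≃ₐ[ℚ] K) →* Eˣ) : E ⊗[ℚ] K :=
  ∑ σ : K ≃ₐ[ℚ] K, ((lam σ : Eˣ) : E) ⊗ₜ[ℚ] σ x

lemma act_res (x : K) (lam : (K ≃ₐ[ℚ] K) →* Eˣ) (g : K ≃ₐ[ℚ] K) :
    act g (res x lam) = ((lam g⁻¹ : Eˣ) : E) • res x lam := by
  rw [res, map_sum, Finset.smul_sum]
  refine Fintype.sum_equiv (Equiv.mulLeft g) _ _ fun σ => ?_
  rw [act_tmul, TensorProduct.smul_tmul', Equiv.coe_mulLeft, smul_eq_mul, ← Units.val_mul,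
    ← map_mul, inv_mul_cancel_left]
  rfl

/-- the homomorphism to the complex numbers -/
noncomputable def ev (τ : E →+* ℂ) (ι : K →+* ℂ) : E ⊗[ℚ] K →ₐ[ℚ] ℂ :=
  Algebra.TensorProduct.productMap τ.toRatAlgHom ι.toRatAlgHom

lemma ev_tmul (τ : E →+* ℂ) (ι : K →+* ℂ) (e : E) (y : K) : ev τ ι (e ⊗ₜ[ℚ] y) = τ e * ι y := rfl

lemma ev_res (τ : E →+* ℂ) (ι : K →+* ℂ) (x : K) (lam : (K ≃ₐ[ℚ] K) →* Eˣ) :
    ev τ ι (res x lam) = ∑ σ, τ ((lam σ : Eˣ) : E) * ι (σ x) := by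
  rw [res, map_sum]
  rfl

/-- **Products of resolvents.** -/
theorem prod_res (ι : K →+* ℂ) (x : K)
    (hx : ∀ lam : (K ≃ₐ[ℚ] K) →* ℂˣ, ∑ σ, (lam σ : ℂ) * ι (σ x) ≠ 0)
    [Nonempty (E →+* ℂ)] {J : Type*} (s : Finset J) (lam : J → ((K ≃ₐ[ℚ] K) →* Eˣ)) (m : J → ℕ)
    (δ : (K ≃ₐ[ℚ] K) →* Eˣ) (hδ : ∀ g, ∏ j ∈ s, lam j g ^ m j = δ g) :
    ∃ u : E, u ≠ 0 ∧ ∀ τ : E →+* ℂ, ∏ j ∈ s, (∑ σ, τ ((lam j σ : Eˣ) : E) * ι (σ x)) ^ m j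
      = τ u * ∑ σ, τ ((δ σ : Eˣ) : E) * ι (σ x) := by
  classical
  have hR : ∀ (τ : E →+* ℂ) (μ : (K ≃ₐ[ℚ] K) →* Eˣ), ∑ σ, τ ((μ σ : Eˣ) : E) * ι (σ x) ≠ 0 :=
    fun τ μ => hx ((Units.map τ.toMonoidHom).comp μ)
  have h1 : ∀ g : K ≃ₐ[ℚ] K, act g ((∏ j ∈ s, res x (lam j) ^ m j) * res x δ⁻¹)
      = (∏ j ∈ s, res x (lam j) ^ m j) * res x δ⁻¹ := by
    intro g
    rw [map_mul, map_prod, act_res]
    have h2 : ∀ j ∈ s, act g (res x (lam j) ^ m j)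
        = ((lam j g⁻¹ ^ m j : Eˣ) : E) • res x (lam j) ^ m j := by
      intro j _
      rw [map_pow, act_res, smul_pow, Units.val_pow_eq_pow_val]
    rw [Finset.prod_congr rfl h2, Finset.prod_smul, smul_mul_smul_comm, ← Units.coe_prod, hδ,
      ← Units.val_mul]
    have h3 : δ g⁻¹ * (δ⁻¹ : (K ≃ₐ[ℚ] K) →* Eˣ) g⁻¹ = 1 := by
      rw [MonoidHom.inv_apply, mul_inv_cancel]
    rw [h3, Units.val_one, one_smul]
  have h2 : ∀ g : K ≃ₐ[ℚ] K, act g (res x δ * res x δ⁻¹) = res x δ * res x δ⁻¹ := by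
    intro g
    rw [map_mul, act_res, act_res, smul_mul_smul_comm, ← Units.val_mul]
    have h3 : δ g⁻¹ * (δ⁻¹ : (K ≃ₐ[ℚ] K) →* Eˣ) g⁻¹ = 1 := by
      rw [MonoidHom.inv_apply, mul_inv_cancel]
    rw [h3, Units.val_one, one_smul]
  obtain ⟨a, ha⟩ := fixed h1
  obtain ⟨b, hb⟩ := fixed h2
  have ha' : ∀ τ : E →+* ℂ, (∏ j ∈ s, (∑ σ, τ ((lam j σ : Eˣ) : E) * ι (σ x)) ^ m j) *
      ∑ σ, τ (((δ⁻¹ : (K ≃ₐ[ℚ] K) →* Eˣ) σ : Eˣ) : E) * ι (σ x) = τ a := by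
    intro τ
    have h3 := congrArg (ev τ ι) ha
    rw [map_mul, map_prod, ev_res, ev_tmul, map_one, mul_one] at h3
    rw [← h3]
    congr 1
    refine Finset.prod_congr rfl fun j _ => ?_
    rw [map_pow, ev_res]
  have hb' : ∀ τ : E →+* ℂ, (∑ σ, τ ((δ σ : Eˣ) : E) * ι (σ x)) *
      ∑ σ, τ (((δ⁻¹ : (K ≃ₐ[ℚ] K) →* Eˣ) σ : Eˣ) : E) * ι (σ x) = τ b := by
    intro τ
    have h3 := congrArg (ev τ ι) hb
    rw [map_mul, ev_res, ev_res, ev_tmul, map_one, mul_one] at h3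
    exact h3
  obtain ⟨τ₀⟩ := ‹Nonempty (E →+* ℂ)›
  have hb0 : b ≠ 0 := by
    rintro rfl
    have h3 := hb' τ₀
    rw [map_zero] at h3
    exact mul_ne_zero (hR _ _) (hR _ _) h3
  have ha0 : a ≠ 0 := by
    rintro rfl
    have h3 := ha' τ₀
    rw [map_zero] at h3
    exact mul_ne_zero (Finset.prod_ne_zero_iff.mpr fun j _ => pow_ne_zero _ (hR _ _)) (hR _ _) h3
  refine ⟨a / b, div_ne_zero ha0 hb0, fun τ => ?_⟩
  have h3 := hR τ δ⁻¹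
  apply mul_right_cancel₀ h3
  rw [ha' τ, mul_assoc, hb' τ, ← map_mul, div_mul_cancel₀ _ hb0]

end Pool.Agent.U213.EC
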