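import Mathlib
import Pool.Agent.R389.Part3
import Pool.Agent.R389.Quat
import Pool.Agent.U213.EC.Eig

/-!
# Irreducible characters under two embeddings of the coefficient field
-/

set_option autoImplicit false
set_option linter.unusedSectionVars false

namespace Pool.Agent.U213.EC

open Pool.Agent.R389 Pool.Agent.H302R2 Pool.Agent.H541R3.ART Pool.Agent.W446.AS

variable {G : Type} [Group G] [Finite G] {E : Type} [Field E]

lemma virt_of_decomp {f : G → ℂ} {m : (G → ℂ) → ℕ} (h : IsDecomp f m) : Virt f := by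
  have h1 : f = theta (fun χ => (m χ : ℤ)) := by
    funext g
    have h2 := h g
    rw [finsum_irr (fun χ => (m χ : ℂ) * χ g)] at h2
    refine h2.trans ?_
    rw [theta]
    simp
  rw [h1]
  exact theta_virt _

/-- Brauer's theorem -/
lemma mono_of_virt {f : G → ℂ} (hf : Virt f) : f ∈ GoodA (0 : G → ℂ) := by
  have h0 : ∀ n : (⊥ : Subgroup G), (n : G) = 1 := fun n => Subgroup.mem_bot.mp n.2
  refine goodA_zero (N := (⊥ : Subgroup G)) (μ := 1) (fun g x => rfl) (fun g n => by simp) ?_ hf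
    fun g n => ?_
  · exact map_zero (partHom (⊥ : Subgroup G) 1)
  · rw [h0 n]; simp

/-- Virtual characters come from functions with values in `E`. -/
lemma lift_virt {ζ : E} (hζ : IsPrimitiveRoot ζ (Monoid.exponent G)) (τ₀ : E →+* ℂ) {f : G → ℂ}
    (hf : Virt f) : ∃ F : G → E, (∀ g, τ₀ (F g) = f g) ∧ ∀ τ : E →+* ℂ, Virt (fun g => τ (F g)) := by
  have hf' := mono_of_virt hf
  clear hf
  induction hf' using AddSubgroup.closure_induction with
  | mem s hs =>
    obtain ⟨U, ψ, rfl, -⟩ := hs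
    obtain ⟨ψE, hψE⟩ := lift_char hζ τ₀ U ψ
    refine ⟨ind U (fun u => ((ψE u : Eˣ) : E)), fun g => ?_, fun τ => ?_⟩
    · rw [ind_map]
      congr 1
      funext u
      exact hψE u
    · obtain ⟨m, hm⟩ := ind_isDecomp U ((Units.map τ.toMonoidHom).comp ψE)
      have h1 : (fun g => τ (ind U (fun u => ((ψE u : Eˣ) : E)) g))
          = ind U (fun h => ((((Units.map τ.toMonoidHom).comp ψE) h : ℂˣ) : ℂ)) := by
        funext g
        rw [ind_map]
        rfl
      rw [h1]
      exact virt_of_decomp hm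
  | zero =>
    refine ⟨0, fun g => by simp, fun τ => ?_⟩
    have h1 : (fun g => τ ((0 : G → E) g)) = (0 : G → ℂ) := by
      funext g; simp
    rw [h1]
    exact zero_mem (AddSubgroup.closure (Irr G))
  | add a b _ _ ha hb =>
    obtain ⟨F, h1, h2⟩ := ha
    obtain ⟨F', h1', h2'⟩ := hb
    refine ⟨F + F', fun g => by rw [Pi.add_apply, map_add, h1, h1']; rfl, fun τ => ?_⟩
    have h3 : (fun g => τ ((F + F') g)) = (fun g => τ (F g)) + fun g => τ (F' g) := by
      funext g; simp
    rw [h3]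
    exact add_mem (S := AddSubgroup (G → ℂ)) (h2 τ) (h2' τ)
  | neg a _ ha =>
    obtain ⟨F, h1, h2⟩ := ha
    refine ⟨-F, fun g => by rw [Pi.neg_apply, map_neg, h1]; rfl, fun τ => ?_⟩
    have h3 : (fun g => τ ((-F) g)) = -(fun g => τ (F g)) := by
      funext g; simp
    rw [h3]
    exact neg_mem (S := AddSubgroup (G → ℂ)) (h2 τ)

/-- the pairing over a field -/
noncomputable def prE (a b : G → E) : E := (Nat.card G : E)⁻¹ * ∑ᶠ g, a g * b g⁻¹

lemma map_prE (τ : E →+* ℂ) (a b : G → E) :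
    τ (prE a b) = pr (fun g => τ (a g)) (fun g => τ (b g)) := by
  classical
  have : Fintype G := Fintype.ofFinite G
  rw [prE, pr, finsum_eq_sum_of_fintype, finsum_eq_sum_of_fintype, map_mul, map_inv₀, map_natCast,
    map_sum]
  simp only [map_mul]

/-- two embeddings agree on natural numbers -/
lemma nat_transfer (τ τ' : E →+* ℂ) {e : E} {k : ℕ} (h : τ e = k) : τ' e = k := by
  have h1 : e = (k : E) := by
    apply τ.injective
    rw [h, map_natCast]
  rw [h1, map_natCast]

/-- **Transfer of irreducible characters.** -/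
lemma irr_transfer {ζ : E} (hζ : IsPrimitiveRoot ζ (Monoid.exponent G)) (τ₀ : E →+* ℂ) {χ : G → ℂ}
    (hχ : χ ∈ Irr G) : ∃ F : G → E, (∀ g, τ₀ (F g) = χ g) ∧ ∀ τ : E →+* ℂ, (fun g => τ (F g)) ∈ Irr G := by
  obtain ⟨F, h1, h2⟩ := lift_virt hζ τ₀ (AddSubgroup.subset_closure hχ)
  refine ⟨F, h1, fun τ => ?_⟩
  have h3 : (fun g => τ₀ (F g)) = χ := funext h1
  have h4 : ∃ d : ℕ, χ 1 = d := by
    obtain ⟨n, ρ, -, rfl⟩ := hχ
    exact ⟨_, ρ.char_one⟩
  obtain ⟨d, hd⟩ := h4
  refine irr_of_norm (h2 τ) ?_ (d := d) (nat_transfer τ₀ τ (by rw [h1, hd]))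
  rw [← map_prE]
  have h5 := nat_transfer τ₀ τ (e := prE F F) (k := 1) (by rw [map_prE, h3, pr_self hχ]; simp)
  rw [h5]; simp

end Pool.Agent.U213.EC
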