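import Mathlib
import Pool.Agent.U213.EC.Defs
import Pool.Agent.U213.EC.Trans
import Pool.Agent.U213.EC.Mult
import Pool.Agent.U213.EC.Res

/-!
# The periods of the constituents and the period of a representation
-/

set_option autoImplicit false
set_option linter.unusedSectionVars false

namespace Pool.Agent.U213.EC

open Pool.Agent.R389 Pool.Agent.H302R2 Pool.Agent.H541R3.ART Pool.Agent.W446.AS

section group

variable {G : Type} [Group G] [Finite G]

/-- matrix form of an irreducible representation -/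
lemma exists_matrix {χ : G → ℂ} (hχ : χ ∈ Irr G) :
    ∃ (n : ℕ) (ρ : G →* Matrix (Fin n) (Fin n) ℂ), ∀ g, χ g = (ρ g).trace := by
  obtain ⟨n, ρ, -, rfl⟩ := hχ
  refine ⟨n, ⟨⟨fun g => LinearMap.toMatrix' (ρ g), ?_⟩, fun a b => ?_⟩, fun g => ?_⟩
  · rw [map_one]; exact LinearMap.toMatrix'_one
  · change LinearMap.toMatrix' (ρ (a * b)) = LinearMap.toMatrix' (ρ a) * LinearMap.toMatrix' (ρ b)
    rw [map_mul]
    exact LinearMap.toMatrix'_mul _ _
  · change LinearMap.trace ℂ _ (ρ g) = (LinearMap.toMatrix' (ρ g)).trace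
    rw [LinearMap.trace_eq_matrix_trace ℂ (Pi.basisFun ℂ (Fin n)) (ρ g)]
    rfl

/-- the representation on the column vectors -/
noncomputable def toRep {k : Type} [Field k] {n : ℕ} (ρ : G →* Matrix (Fin n) (Fin n) k) :
    Representation k G (Fin n → k) where
  toFun g := Matrix.toLin' (ρ g)
  map_one' := by rw [map_one, Matrix.toLin'_one]; rfl
  map_mul' a b := by rw [map_mul, Matrix.toLin'_mul]; rfl

lemma toRep_char {k : Type} [Field k] {n : ℕ} (ρ : G →* Matrix (Fin n) (Fin n) k) (g : G) :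
    (toRep ρ).character g = (ρ g).trace := by
  change LinearMap.trace k _ (Matrix.toLin' (ρ g)) = _
  rw [Matrix.trace_toLin'_eq]

/-- the character of a representation is a sum of irreducible characters -/
lemma exists_decomp {n : ℕ} (ρ : G →* Matrix (Fin n) (Fin n) ℂ) :
    ∃ m, IsDecomp (fun g => (ρ g).trace) m := by
  classical
  have h1 : (fun g => (ρ g).trace) = (toRep ρ).character := funext fun g => (toRep_char ρ g).symm
  have h2 : (fun g => (ρ g).trace) ∈ AddSubmonoid.closure (Irr G) := by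
    rw [h1]
    exact char_memP _ (toRep ρ) rfl
  have h3 : ∀ χ ∈ Irr G, ∃ k : ℕ, pr (fun g => (ρ g).trace) χ = k := by
    intro χ hχ
    refine nat_closure (fun η hη => ?_) h2
    by_cases he : η = χ
    · exact ⟨1, by rw [he, pr_self hχ]; simp⟩
    · exact ⟨0, by rw [pr_ne hη hχ he]; simp⟩
  choose! m hm using h3
  refine ⟨m, IsDecomp.of_pr (fun g x => ?_) hm⟩
  change (ρ (x * g * x⁻¹)).trace = (ρ g).trace
  rw [← toRep_char, ← toRep_char]
  exact (toRep ρ).char_conj g x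

variable {E : Type} [Field E]

/-- base change of a matrix representation -/
def bc {n : ℕ} (τ : E →+* ℂ) (ρ : G →* Matrix (Fin n) (Fin n) E) : G →* Matrix (Fin n) (Fin n) ℂ :=
  τ.mapMatrix.toMonoidHom.comp ρ

lemma bc_trace {n : ℕ} (τ : E →+* ℂ) (ρ : G →* Matrix (Fin n) (Fin n) E) (g : G) :
    (bc τ ρ g).trace = τ (ρ g).trace := by
  change ((ρ g).map τ).trace = _
  rw [Matrix.trace, Matrix.trace, map_sum]
  rfl

lemma bc_det {n : ℕ} (τ : E →+* ℂ) (ρ : G →* Matrix (Fin n) (Fin n) E) (g : G) :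
    (bc τ ρ g).det = τ (ρ g).det := by
  change (τ.mapMatrix (ρ g)).det = _
  rw [← RingHom.map_det]

end group

namespace Data

variable {F₀ : Type} [Field F₀] [NumberField F₀] [IsGalois ℚ F₀] (D : Data F₀)

lemma c_sq : D.c ^ 2 = 1 := by
  ext x
  apply D.ι.injective
  change D.ι ((D.c ^ 2) x) = D.ι x
  rw [pow_two, AlgEquiv.mul_apply, D.ι_c, D.ι_c]
  simp

lemma pow_exp (g : D.G) : g ^ Monoid.exponent D.G = 1 := Monoid.pow_exponent_eq_one g

lemma exp_pos : 0 < Monoid.exponent D.G := Nat.pos_of_ne_zero Monoid.exponent_ne_zero_of_finite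

lemma R_eq (lam : D.G → ℂ) : D.R lam = ∑ σ, lam σ * D.ι (σ D.x) := finsum_eq_sum_of_fintype _

lemma R_ne (lam : D.G →* ℂˣ) : D.R (fun σ => (lam σ : ℂ)) ≠ 0 := D.x_ne lam

lemma period_ne {n : ℕ} (ρ : D.G →* Matrix (Fin n) (Fin n) ℂ) : D.period ρ ≠ 0 := by
  have h := D.R_ne ((Matrix.detMonoidHom.comp ρ).toHomUnits)
  exact mul_ne_zero (mul_ne_zero h (pow_ne_zero _ D.Ωp_ne)) (pow_ne_zero _ D.Ωm_ne)

/-- isomorphic representations have the same period -/
lemma period_congr {n n' : ℕ} (ρ : D.G →* Matrix (Fin n) (Fin n) ℂ)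
    (ρ' : D.G →* Matrix (Fin n') (Fin n') ℂ) (h : ∀ g, (ρ g).trace = (ρ' g).trace) :
    D.period ρ = D.period ρ' := by
  have h1 : ∀ (g : D.G) (N : ℕ), 0 < N → g ^ N = 1 → ∀ z : ℂ, z ^ N = 1 →
      (ρ g).charpoly.rootMultiplicity z = (ρ' g).charpoly.rootMultiplicity z := by
    intro g N hN hg z hz
    exact mult_transfer (RingHom.id ℂ) (RingHom.id ℂ) (fun g => (ρ g).trace) ρ ρ' (fun _ => rfl)
      (fun g => h g) hN hg hz
  have h2 : (fun σ => (ρ σ).det) = fun σ => (ρ' σ).det := by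
    funext g
    rw [det_eq D.exp_pos (by rw [← map_pow, D.pow_exp, map_one]),
      det_eq D.exp_pos (by rw [← map_pow, D.pow_exp, map_one])]
    refine Finset.prod_congr rfl fun z hz => ?_
    rw [h1 g _ D.exp_pos (D.pow_exp g) z ((Polynomial.mem_nthRootsFinset D.exp_pos _).mp hz)]
  rw [period, period, h2, h1 D.c 2 two_pos D.c_sq 1 (by norm_num),
    h1 D.c 2 two_pos D.c_sq (-1) (by norm_num)]

open Classical in
/-- the period of a character -/
noncomputable def P (χ : D.G → ℂ) : ℂ :=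
  if h : ∃ (n : ℕ) (ρ : D.G →* Matrix (Fin n) (Fin n) ℂ), ∀ g, χ g = (ρ g).trace then
    D.period h.choose_spec.choose else 1

lemma P_eq {χ : D.G → ℂ} {n : ℕ} (ρ : D.G →* Matrix (Fin n) (Fin n) ℂ)
    (h : ∀ g, χ g = (ρ g).trace) : D.P χ = D.period ρ := by
  have h1 : ∃ (n : ℕ) (ρ : D.G →* Matrix (Fin n) (Fin n) ℂ), ∀ g, χ g = (ρ g).trace := ⟨n, ρ, h⟩
  rw [P, dif_pos h1]
  exact D.period_congr _ _ fun g => by rw [← h1.choose_spec.choose_spec g, h]

lemma P_ne {χ : D.G → ℂ} (hχ : χ ∈ Irr D.G) : D.P χ ≠ 0 := by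
  obtain ⟨n, ρ, h⟩ := exists_matrix hχ
  rw [D.P_eq ρ h]
  exact D.period_ne ρ

/-- **The period of a representation** over `E` is the product of the periods of its constituents, up to
an element of `E` which does not depend on the embedding. -/
theorem period_decomp {E : Type} [Field E] [CharZero E] [Nonempty (E →+* ℂ)] {ζ : E}
    (hζ : IsPrimitiveRoot ζ (Monoid.exponent D.G)) {n : ℕ}
    (ρ : D.G →* Matrix (Fin n) (Fin n) E) :
    ∃ u : E, u ≠ 0 ∧ ∀ (τ : E →+* ℂ) (m : (D.G → ℂ) → ℕ), IsDecomp (fun g => τ (ρ g).trace) m →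
      ∏ᶠ χ ∈ Irr D.G, D.P χ ^ m χ = τ u * D.period (bc τ ρ) := by
  classical
  obtain ⟨τ₀⟩ := ‹Nonempty (E →+* ℂ)›
  have hne : Nonempty (E →+* ℂ) := ⟨τ₀⟩
  let F : D.G → E := fun g => (ρ g).trace
  choose Φ hΦ₀ hΦ using fun χ : irrF D.G => irr_transfer hζ τ₀ (mem_irrF.mp χ.2)
  choose d r hr using fun (τ : E →+* ℂ) (χ : irrF D.G) => exists_matrix (hΦ χ τ)
  obtain ⟨m₀, hm₀⟩ := exists_decomp (bc τ₀ ρ)
  have hm₀' : ∀ χ ∈ Irr D.G, pr (fun g => τ₀ (F g)) χ = m₀ χ := by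
    intro χ hχ
    have h1 : (fun g => τ₀ (F g)) = fun g => (bc τ₀ ρ g).trace :=
      funext fun g => (bc_trace τ₀ ρ g).symm
    rw [h1]
    exact hm₀.pr hχ
  -- multiplicities
  have hmult : ∀ (τ : E →+* ℂ) (m : (D.G → ℂ) → ℕ), IsDecomp (fun g => τ (ρ g).trace) m →
      ∀ j : irrF D.G, m (fun g => τ (Φ j g)) = m₀ j := by
    intro τ m hm j
    have h1 : τ (prE F (Φ j)) = m (fun g => τ (Φ j g)) := by
      rw [map_prE]
      exact hm.pr (hΦ j τ)
    have h2 : τ₀ (prE F (Φ j)) = m₀ j := by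
      rw [map_prE]
      have h3 : (fun g => τ₀ (Φ j g)) = (j : D.G → ℂ) := funext (hΦ₀ j)
      rw [h3]
      exact hm₀' _ (mem_irrF.mp j.2)
    have h3 := nat_transfer τ₀ τ h2
    rw [h1] at h3
    exact_mod_cast h3
  -- reindexing
  have hinj : ∀ τ : E →+* ℂ, Function.Injective
      (fun j : irrF D.G => (⟨fun g => τ (Φ j g), mem_irrF.mpr (hΦ j τ)⟩ : irrF D.G)) := by
    intro τ a b hab
    have h1 : ∀ g, τ (Φ a g) = τ (Φ b g) := fun g => congrFun (congrArg Subtype.val hab) g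
    apply Subtype.ext
    funext g
    rw [← hΦ₀ a g, ← hΦ₀ b g, τ.injective (h1 g)]
  have hbij : ∀ τ : E →+* ℂ, Function.Bijective
      (fun j : irrF D.G => (⟨fun g => τ (Φ j g), mem_irrF.mpr (hΦ j τ)⟩ : irrF D.G)) :=
    fun τ => Finite.injective_iff_bijective.mp (hinj τ)
  have hprod : ∀ (τ : E →+* ℂ) (f : (D.G → ℂ) → ℂ),
      ∏ χ ∈ irrF D.G, f χ = ∏ j : irrF D.G, f (fun g => τ (Φ j g)) := by
    intro τ f
    rw [← Finset.prod_coe_sort]
    exact (Fintype.prod_bijective _ (hbij τ) _ _ fun j => rfl).symm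
  have hsum : ∀ (τ : E →+* ℂ) (f : (D.G → ℂ) → ℂ),
      ∑ χ ∈ irrF D.G, f χ = ∑ j : irrF D.G, f (fun g => τ (Φ j g)) := by
    intro τ f
    rw [← Finset.sum_coe_sort]
    exact (Fintype.sum_bijective _ (hbij τ) _ _ fun j => rfl).symm
  -- the trace of the base change
  have htr : ∀ (τ : E →+* ℂ) (m : (D.G → ℂ) → ℕ), IsDecomp (fun g => τ (ρ g).trace) m →
      ∀ g, (bc τ ρ g).trace = ∑ j : irrF D.G, (m₀ j : ℂ) * (r τ j g).trace := by
    intro τ m hm g
    have hmg : τ (ρ g).trace = ∑ᶠ χ ∈ Irr D.G, (m χ : ℂ) * χ g := hm g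
    rw [bc_trace, hmg, finsum_irr (fun χ => (m χ : ℂ) * χ g), hsum τ (fun χ => (m χ : ℂ) * χ g)]
    refine Finset.sum_congr rfl fun j _ => ?_
    rw [hmult τ m hm j, ← hr τ j g]
  have hm₀τ : IsDecomp (fun g => τ₀ (ρ g).trace) m₀ := by
    have h1 : (fun g => τ₀ (ρ g).trace) = fun g => (bc τ₀ ρ g).trace :=
      funext fun g => (bc_trace τ₀ ρ g).symm
    rw [h1]
    exact hm₀
  -- determinants
  choose lam hlam using fun j : irrF D.G =>
    det_lift D.exp_pos hζ D.pow_exp τ₀ (Φ j) (r τ₀ j) (fun g => hr τ₀ j g)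
  let δ : D.G →* Eˣ := (Matrix.detMonoidHom.comp ρ).toHomUnits
  have hδ' : ∀ g, ((δ g : Eˣ) : E) = (ρ g).det := fun g => rfl
  have hδ : ∀ g, ∏ j : irrF D.G, lam j g ^ m₀ j = δ g := by
    intro g
    apply Units.ext
    apply τ₀.injective
    rw [hδ', ← bc_det, det_prod (bc τ₀ ρ) Finset.univ (fun j : irrF D.G => m₀ j) (d τ₀) (r τ₀)
      (htr τ₀ m₀ hm₀τ) D.exp_pos (D.pow_exp g), Units.coe_prod, map_prod]
    refine Finset.prod_congr rfl fun j _ => ?_
    rw [Units.val_pow_eq_pow_val, map_pow, hlam j τ₀ _ (r τ₀ j) (fun g => hr τ₀ j g) g]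
  have hx : ∀ mu : (F₀ ≃ₐ[ℚ] F₀) →* ℂˣ, ∑ σ, (mu σ : ℂ) * D.ι (σ D.x) ≠ 0 := by
    intro mu
    have := D.x_ne mu
    rwa [finsum_eq_sum_of_fintype] at this
  obtain ⟨u, hu0, hu⟩ := prod_res D.ι D.x hx (Finset.univ : Finset (irrF D.G)) lam
    (fun j => m₀ j) δ hδ
  refine ⟨u, hu0, fun τ m hm => ?_⟩
  rw [finprod_irr (fun χ => D.P χ ^ m χ), hprod τ (fun χ => D.P χ ^ m χ)]
  have h1 : ∀ j : irrF D.G, D.P (fun g => τ (Φ j g)) ^ m (fun g => τ (Φ j g))
      = (∑ σ, τ ((lam j σ : Eˣ) : E) * D.ι (σ D.x)) ^ m₀ j *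
        D.Ωp ^ (m₀ j * (r τ j D.c).charpoly.rootMultiplicity 1) *
        D.Ωm ^ (m₀ j * (r τ j D.c).charpoly.rootMultiplicity (-1)) := by
    intro j
    rw [hmult τ m hm j, D.P_eq (r τ j) (hr τ j), period, mul_pow, mul_pow, ← pow_mul, ← pow_mul,
      R_eq, mul_comm (m₀ j : ℕ), mul_comm (m₀ j : ℕ)]
    congr 3
    refine Finset.sum_congr rfl fun σ _ => ?_
    rw [hlam j τ _ (r τ j) (fun g => hr τ j g) σ]
  rw [Finset.prod_congr rfl (fun j _ => h1 j), Finset.prod_mul_distrib, Finset.prod_mul_distrib, hu τ,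
    Finset.prod_pow_eq_pow_sum, Finset.prod_pow_eq_pow_sum,
    ← mult_sum (bc τ ρ) Finset.univ (fun j : irrF D.G => m₀ j) (d τ) (r τ) (htr τ m hm) two_pos
      D.c_sq (by norm_num : (1 : ℂ) ^ 2 = 1),
    ← mult_sum (bc τ ρ) Finset.univ (fun j : irrF D.G => m₀ j) (d τ) (r τ) (htr τ m hm) two_pos
      D.c_sq (by norm_num : (-1 : ℂ) ^ 2 = 1), period, R_eq]
  have h2 : ∑ σ, τ ((δ σ : Eˣ) : E) * D.ι (σ D.x)
      = ∑ σ, (bc τ ρ σ).det * D.ι (σ D.x) := by
    refine Finset.sum_congr rfl fun σ _ => ?_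
    rw [hδ', bc_det]
  rw [h2]
  ring

end Data

end Pool.Agent.U213.EC
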