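import Mathlib
import Pool.Agent.U213.EC.Per

/-!
# The twisted L-functions: products and uniqueness
-/

set_option autoImplicit false
set_option linter.unusedSectionVars false

open Filter Topology

namespace Pool.Agent.U213.EC

open Pool.Agent.R389 Pool.Agent.H302R2 Pool.Agent.H541R3.ART Pool.Agent.W446.AS

namespace Data

variable {F₀ : Type} [Field F₀] [NumberField F₀] [IsGalois ℚ F₀] {D : Data F₀}

lemma IsL.prod {J : Type*} (t : Finset J) (k : J → ℤ) (f : J → D.G → ℂ) (ℓ : J → ℂ → ℂ)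
    (h : ∀ j ∈ t, D.IsL (f j) (ℓ j)) {F : D.G → ℂ} (hF : ∀ g, F g = ∑ j ∈ t, (k j : ℂ) * f j g) :
    D.IsL F (fun z => ∏ j ∈ t, ℓ j z ^ k j) := by
  classical
  refine ⟨fun s => MeromorphicAt.fun_prod fun j hj => ((h j hj).1 s).fun_zpow _, fun s hs => ?_⟩
  choose! z h1 h2 using fun j (hj : j ∈ t) => (h j hj).2 s hs
  refine ⟨∑ j ∈ t, (k j : ℂ) * z j, ?_, ?_⟩
  · rw [Complex.exp_sum]
    refine Finset.prod_congr rfl fun j hj => ?_
    rw [h1 j hj, ← Complex.exp_int_mul]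
  · have h3 := hasSum_sum fun j hj => (h2 j hj).mul_left (k j : ℂ)
    have h4 : (fun q : D.Pr × ℕ => (D.tr q.1 (q.2 + 1) : ℂ) * F (D.frob q.1 ^ (q.2 + 1)) *
        ((q.1 : ℕ) : ℂ) ^ (-((q.2 + 1 : ℕ) : ℂ) * s) / ((q.2 + 1 : ℕ) : ℂ))
        = fun q : D.Pr × ℕ => ∑ j ∈ t, (k j : ℂ) * ((D.tr q.1 (q.2 + 1) : ℂ) *
          f j (D.frob q.1 ^ (q.2 + 1)) *
          ((q.1 : ℕ) : ℂ) ^ (-((q.2 + 1 : ℕ) : ℂ) * s) / ((q.2 + 1 : ℕ) : ℂ)) := by
      funext q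
      rw [hF, Finset.mul_sum, Finset.sum_mul, Finset.sum_div]
      refine Finset.sum_congr rfl fun j _ => ?_
      ring
    rw [h4]
    exact h3

/-- the L-function is not identically zero near any point -/
lemma IsL.order_ne {f : D.G → ℂ} {ℓ : ℂ → ℂ} (h : D.IsL f ℓ) (c : ℂ) :
    meromorphicOrderAt ℓ c ≠ ⊤ := by
  have hm : Meromorphic ℓ := h.1
  refine hm.exists_meromorphicOrderAt_ne_top_iff_forall.mp ⟨2, ?_⟩ c
  rw [meromorphicOrderAt_ne_top_iff_eventually_ne_zero (h.1 2)]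
  have h1 : ∀ᶠ z : ℂ in 𝓝 2, 3 / 2 < z.re :=
    (isOpen_lt continuous_const Complex.continuous_re).mem_nhds (by norm_num)
  filter_upwards [h1.filter_mono nhdsWithin_le_nhds] with z hz
  obtain ⟨w, h2, -⟩ := h.2 z hz
  rw [h2]
  exact Complex.exp_ne_zero w

/-- uniqueness of the L-function -/
lemma IsL.unique {f : D.G → ℂ} {ℓ ℓ' : ℂ → ℂ} (h : D.IsL f ℓ) (h' : D.IsL f ℓ') (c : ℂ) :
    ∀ᶠ z in 𝓝[≠] c, ℓ z = ℓ' z := by
  have hm : Meromorphic (ℓ - ℓ') := fun s => (h.1 s).sub (h'.1 s)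
  have h1 : meromorphicOrderAt (ℓ - ℓ') 2 = ⊤ := by
    rw [meromorphicOrderAt_eq_top_iff]
    have h1 : ∀ᶠ z : ℂ in 𝓝 2, 3 / 2 < z.re :=
      (isOpen_lt continuous_const Complex.continuous_re).mem_nhds (by norm_num)
    filter_upwards [h1.filter_mono nhdsWithin_le_nhds] with z hz
    obtain ⟨w, h2, h3⟩ := h.2 z hz
    obtain ⟨w', h2', h3'⟩ := h'.2 z hz
    rw [Pi.sub_apply, h2, h2', h3.unique h3', sub_self]
  have h2 : meromorphicOrderAt (ℓ - ℓ') c = ⊤ := by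
    by_contra h3
    exact hm.exists_meromorphicOrderAt_ne_top_iff_forall.mp ⟨c, h3⟩ 2 h1
  rw [meromorphicOrderAt_eq_top_iff] at h2
  filter_upwards [h2] with z hz
  exact sub_eq_zero.mp hz

end Data

end Pool.Agent.U213.EC
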