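import Mathlib
import Pool.Agent.R389.Ind

/-!
# Induced representations as matrices
-/

set_option autoImplicit false
set_option linter.unusedSectionVars false

namespace Pool.Agent.U213.EC

open Pool.Agent.R389

variable {k : Type} [Field k] {G : Type} [Group G] {U : Subgroup G} (ψ : U →* kˣ)

/-- the extension by zero of a linear character of `U` -/
noncomputable def lx (y : G) : k := ext U (fun u => ((ψ u : kˣ) : k)) y

lemma lx_mem {y : G} (hy : y ∈ U) : lx ψ y = ((ψ ⟨y, hy⟩ : kˣ) : k) := by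
  rw [lx, ext, dif_pos hy]

lemma lx_not {y : G} (hy : y ∉ U) : lx ψ y = 0 := by
  rw [lx, ext, dif_neg hy]

lemma lx_mul_right (y : G) {u : G} (hu : u ∈ U) : lx ψ (y * u) = lx ψ y * lx ψ u := by
  by_cases hy : y ∈ U
  · rw [lx_mem ψ hy, lx_mem ψ hu, lx_mem ψ (mul_mem hy hu), ← Units.val_mul, ← map_mul]
    rfl
  · rw [lx_not ψ hy, zero_mul, lx_not ψ]
    intro h
    apply hy
    have := mul_mem h (inv_mem hu)
    rwa [mul_inv_cancel_right] at this

lemma lx_mul_left (y : G) {u : G} (hu : u ∈ U) : lx ψ (u * y) = lx ψ u * lx ψ y := by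
  by_cases hy : y ∈ U
  · rw [lx_mem ψ hy, lx_mem ψ hu, lx_mem ψ (mul_mem hu hy), ← Units.val_mul, ← map_mul]
    rfl
  · rw [lx_not ψ hy, mul_zero, lx_not ψ]
    intro h
    apply hy
    have := mul_mem (inv_mem hu) h
    rwa [inv_mul_cancel_left] at this

lemma lx_one : lx ψ 1 = 1 := by
  rw [lx_mem ψ (one_mem U)]
  have : (⟨1, one_mem U⟩ : U) = 1 := rfl
  rw [this, map_one, Units.val_one]

lemma lx_conj (y : G) {u : G} (hu : u ∈ U) : lx ψ (u⁻¹ * y * u) = lx ψ y := by
  rw [mul_assoc, lx_mul_left ψ _ (inv_mem hu), lx_mul_right ψ _ hu, mul_comm (lx ψ y), ← mul_assoc,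
    ← lx_mul_left ψ _ (inv_mem hu), inv_mul_cancel, lx_one, one_mul]

/-- a representative of a coset -/
noncomputable def rep (q : G ⧸ U) : G := Quotient.out q

lemma mk_rep (q : G ⧸ U) : ((rep q : G) : G ⧸ U) = q := Quotient.out_eq q

lemma rep_mem {x : G} : (rep (x : G ⧸ U))⁻¹ * x ∈ U := by
  rw [← QuotientGroup.eq, mk_rep]

/-- the coefficients of the induced representation -/
noncomputable def coeff (g : G) : Matrix (G ⧸ U) (G ⧸ U) k :=
  fun i j => lx ψ ((rep i)⁻¹ * g * rep j)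

variable [Fintype (G ⧸ U)] [DecidableEq (G ⧸ U)]

lemma coeff_one : coeff ψ (1 : G) = 1 := by
  ext i j
  rw [coeff, Matrix.one_apply, mul_one]
  by_cases h : i = j
  · subst h
    rw [inv_mul_cancel, lx_one, if_pos rfl]
  · rw [if_neg h, lx_not ψ]
    intro h1
    apply h
    have h2 := QuotientGroup.eq.mpr h1
    rwa [mk_rep, mk_rep] at h2

lemma coeff_mul (g h : G) : coeff ψ (g * h) = coeff ψ g * coeff ψ h := by
  ext i l
  rw [Matrix.mul_apply, Finset.sum_eq_single ((h * rep l : G) : G ⧸ U)]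
  · have hu : (rep ((h * rep l : G) : G ⧸ U))⁻¹ * (h * rep l) ∈ U := rep_mem
    rw [coeff, coeff, coeff, mul_assoc (rep ((h * rep l : G) : G ⧸ U))⁻¹,
      ← lx_mul_right ψ _ hu]
    congr 1
    group
  · intro j _ hj
    have : coeff ψ h j l = 0 := by
      rw [coeff, lx_not ψ]
      intro h1
      apply hj
      rw [mul_assoc] at h1
      have h2 := QuotientGroup.eq.mpr h1
      rwa [mk_rep] at h2
    rw [this, mul_zero]
  · intro h1
    exact absurd (Finset.mem_univ _) h1

lemma coeff_trace [Finite G] (hc : (Nat.card U : k) ≠ 0) (g : G) :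
    (coeff ψ g).trace = ind U (fun u => ((ψ u : kˣ) : k)) g := by
  classical
  have : Fintype G := Fintype.ofFinite G
  have : Fintype U := Fintype.ofFinite U
  rw [ind, finsum_eq_sum_of_fintype]
  let φ : (G ⧸ U) × U → G := fun q => rep q.1 * q.2
  have hφ : Function.Bijective φ := by
    constructor
    · rintro ⟨q, u⟩ ⟨q', u'⟩ h
      change rep q * (u : G) = rep q' * u' at h
      have h1 : q = q' := by
        rw [← mk_rep q, ← mk_rep q', QuotientGroup.eq]
        have h3 : (rep q)⁻¹ * rep q' = u * (u' : G)⁻¹ := by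
          rw [inv_mul_eq_iff_eq_mul, ← mul_assoc, h, mul_inv_cancel_right]
        rw [h3]
        exact mul_mem u.2 (inv_mem u'.2)
      subst h1
      have h2 : u = u' := Subtype.ext (mul_left_cancel h)
      rw [h2]
    · intro x
      refine ⟨((x : G ⧸ U), ⟨(rep (x : G ⧸ U))⁻¹ * x, rep_mem⟩), ?_⟩
      change rep (x : G ⧸ U) * ((rep (x : G ⧸ U))⁻¹ * x) = x
      group
  have h1 : ∑ x : G, ext U (fun u => ((ψ u : kˣ) : k)) (x⁻¹ * g * x)
      = ∑ q : (G ⧸ U) × U, coeff ψ g q.1 q.1 := by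
    refine (Fintype.sum_bijective φ hφ _ _ fun q => ?_).symm
    change lx ψ ((rep q.1)⁻¹ * g * rep q.1) = lx ψ ((rep q.1 * (q.2 : G))⁻¹ * g * (rep q.1 * q.2))
    rw [← lx_conj ψ ((rep q.1)⁻¹ * g * rep q.1) q.2.2]
    congr 1
    group
  rw [h1, Fintype.sum_prod_type]
  simp only [Finset.sum_const, Finset.card_univ, nsmul_eq_mul]
  rw [← Finset.mul_sum, ← mul_assoc, ← Nat.card_eq_fintype_card, inv_mul_cancel₀ hc, one_mul]
  rfl

/-- **The induced representation.** -/
theorem exists_induced {k : Type} [Field k] [CharZero k] {G : Type} [Group G] [Finite G]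
    (U : Subgroup G) (ψ : U →* kˣ) :
    ∃ (n : ℕ) (ρ : G →* Matrix (Fin n) (Fin n) k),
      ∀ g, (ρ g).trace = ind U (fun u => ((ψ u : kˣ) : k)) g := by
  classical
  have : Fintype (G ⧸ U) := Fintype.ofFinite _
  let e : (G ⧸ U) ≃ Fin (Fintype.card (G ⧸ U)) := Fintype.equivFin _
  let ρ : G →* Matrix (Fin (Fintype.card (G ⧸ U))) (Fin (Fintype.card (G ⧸ U))) k :=
    { toFun := fun g => Matrix.reindexAlgEquiv k k e (coeff ψ g)
      map_one' := by rw [coeff_one, map_one]
      map_mul' := fun g h => by rw [coeff_mul, map_mul] }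
  refine ⟨_, ρ, fun g => ?_⟩
  have hc : (Nat.card U : k) ≠ 0 := by
    have : 0 < Nat.card U := Nat.card_pos
    exact_mod_cast this.ne'
  rw [← coeff_trace ψ hc g]
  change Matrix.trace (Matrix.reindexAlgEquiv k k e (coeff ψ g)) = _
  rw [Matrix.trace, Matrix.trace]
  exact Fintype.sum_equiv e.symm _ _ fun i => rfl

end Pool.Agent.U213.EC
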