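import Mathlib
import Pool.Agent.R389.TwoMain
import Pool.Agent.U213.EC.LFun
import Pool.Agent.U213.EC.Mono

/-!
# From the monomial representations to the irreducible constituents and back
-/

set_option autoImplicit false
set_option linter.unusedSectionVars false

open Filter Topology

namespace Pool.Agent.U213.EC

open Pool.Agent.R389 Pool.Agent.H302R2 Pool.Agent.H541R3.ART Pool.Agent.W446.AS

namespace Data

variable {F₀ : Type} [Field F₀] [NumberField F₀] [IsGalois ℚ F₀] {D : Data F₀}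

/-- the L-functions of the virtual characters exist -/
lemma exists_isL {E : Type} [Field E] {ζ : E} (hζ : IsPrimitiveRoot ζ (Monoid.exponent D.G))
    (τ₀ : E →+* ℂ)
    (hmon : ∀ (U : Subgroup D.G) (ψ : U →* Eˣ) (n : ℕ) (ρ : D.G →* Matrix (Fin n) (Fin n) E),
      (∀ σ, (ρ σ).trace = ind U (fun u => ((ψ u : Eˣ) : E)) σ) → D.Deligne ρ)
    {f : D.G → ℂ} (hf : Virt f) : ∃ ℓ, D.IsL f ℓ := by
  have hf' := mono_of_virt hf
  clear hf
  have hc : CharZero E := (RingHom.charZero_iff τ₀.injective).mpr inferInstance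
  induction hf' using AddSubgroup.closure_induction with
  | mem s hs =>
    obtain ⟨U, ψ, rfl, -⟩ := hs
    obtain ⟨ψE, hψE⟩ := lift_char hζ τ₀ U ψ
    obtain ⟨n, ρ, hρ⟩ := exists_induced U ψE
    obtain ⟨e, he⟩ := hmon U ψE n ρ hρ
    obtain ⟨ℓ, h1, -⟩ := he τ₀
    refine ⟨ℓ, ?_⟩
    have h2 : (fun σ => τ₀ (ρ σ).trace) = ind U (fun h => ((ψ h : ℂˣ) : ℂ)) := by
      funext g
      rw [hρ, ind_map]
      congr 1
      funext u
      exact hψE u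
    rwa [h2] at h1
  | zero =>
    exact ⟨_, IsL.prod (∅ : Finset ℕ) (fun _ => 0) (fun _ => 0) (fun _ _ => 1) (by simp)
      (F := 0) (by simp)⟩
  | add a b _ _ ha hb =>
    obtain ⟨ℓ, h⟩ := ha
    obtain ⟨ℓ', h'⟩ := hb
    refine ⟨_, IsL.prod (Finset.univ : Finset Bool) (fun _ => 1) (fun i => cond i a b)
      (fun i => cond i ℓ ℓ') (fun i _ => by cases i <;> assumption) (fun g => ?_)⟩
    simp
  | neg a _ ha =>
    obtain ⟨ℓ, h⟩ := ha
    refine ⟨_, IsL.prod (Finset.univ : Finset Unit) (fun _ => -1) (fun _ => a) (fun _ => ℓ)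
      (fun _ _ => h) (fun g => ?_)⟩
    simp

variable {ℓ : (D.G → ℂ) → ℂ → ℂ}

/-- the product of the L-functions of the constituents -/
lemma isL_decomp (hℓ : ∀ χ ∈ Irr D.G, D.IsL χ (ℓ χ)) {f : D.G → ℂ} {m : (D.G → ℂ) → ℕ}
    (hm : IsDecomp f m) : D.IsL f (fun s => ∏ᶠ χ ∈ Irr D.G, ℓ χ s ^ m χ) := by
  have h1 : (fun s => ∏ᶠ χ ∈ Irr D.G, ℓ χ s ^ m χ)
      = fun s => ∏ χ ∈ irrF D.G, ℓ χ s ^ ((m χ : ℕ) : ℤ) := by
    funext s
    rw [finprod_irr (fun χ => ℓ χ s ^ m χ)]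
    exact Finset.prod_congr rfl fun χ _ => by rw [zpow_natCast]
  rw [h1]
  refine IsL.prod (irrF D.G) (fun χ => ((m χ : ℕ) : ℤ)) (fun χ => χ) ℓ
    (fun χ hχ => hℓ χ (mem_irrF.mp hχ)) fun g => ?_
  have h2 : f g = ∑ᶠ χ ∈ Irr D.G, (m χ : ℂ) * χ g := hm g
  rw [h2, finsum_irr (fun χ => (m χ : ℂ) * χ g)]
  push_cast
  rfl

/-- Deligne's conjecture in terms of the constituents -/
theorem deligne_iff {E : Type} [Field E] [Nonempty (E →+* ℂ)] {ζ : E}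
    (hζ : IsPrimitiveRoot ζ (Monoid.exponent D.G)) (hℓ : ∀ χ ∈ Irr D.G, D.IsL χ (ℓ χ)) {n : ℕ}
    (ρ : D.G →* Matrix (Fin n) (Fin n) E) :
    D.Deligne ρ ↔ R389.Deligne (fun _ : E →+* ℂ => ℓ) (fun _ => D.P) 1 (fun g => (ρ g).trace) := by
  obtain ⟨τ₀⟩ := ‹Nonempty (E →+* ℂ)›
  have hc : CharZero E := (RingHom.charZero_iff τ₀.injective).mpr inferInstance
  have hne : Nonempty (E →+* ℂ) := ⟨τ₀⟩
  obtain ⟨u, hu0, hu⟩ := D.period_decomp hζ ρ
  constructor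
  · rintro ⟨e, he⟩
    refine ⟨e / u, fun τ m hm => ?_⟩
    obtain ⟨ℓ', h1, h2⟩ := he τ
    have h3 := isL_decomp hℓ hm
    have h4 : τ (e / u) * ∏ᶠ χ ∈ Irr D.G, D.P χ ^ m χ = τ e * D.period (bc τ ρ) := by
      rw [hu τ m hm, ← mul_assoc, ← map_mul, div_mul_cancel₀ _ hu0]
    change Tendsto _ _ (𝓝 (τ (e / u) * ∏ᶠ χ ∈ Irr D.G, D.P χ ^ m χ))
    rw [h4]
    exact h2.congr' (h1.unique h3 1)
  · rintro ⟨e, he⟩
    refine ⟨e * u, fun τ => ?_⟩
    obtain ⟨m, hm⟩ := exists_decomp (bc τ ρ)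
    have h1 : (fun g => (bc τ ρ g).trace) = fun g => τ (ρ g).trace :=
      funext fun g => bc_trace τ ρ g
    rw [h1] at hm
    refine ⟨_, isL_decomp hℓ hm, ?_⟩
    have h2 := he τ m hm
    have h4 : τ e * ∏ᶠ χ ∈ Irr D.G, D.P χ ^ m χ = τ (e * u) * D.period (bc τ ρ) := by
      rw [hu τ m hm, map_mul]; ring
    rw [h4] at h2
    exact h2

/-- the regular character -/
lemma reg_decomp {deg : (D.G → ℂ) → ℕ} (hdeg : ∀ χ ∈ Irr D.G, χ 1 = deg χ) :
    IsDecomp D.reg deg := by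
  classical
  refine IsDecomp.of_pr (fun g x => ?_) fun χ hχ => ?_
  · rw [reg, reg]
    congr 1
    rw [eq_iff_iff, mul_inv_eq_one, mul_eq_left]
  · have h1 : (Nat.card D.G : ℂ) ≠ 0 := card_ne
    rw [pr_eq, Fintype.sum_eq_single (1 : D.G)]
    · rw [reg, if_pos rfl, inv_one, hdeg χ hχ, ← mul_assoc, inv_mul_cancel₀ h1, one_mul]
    · intro g hg
      rw [reg, if_neg hg, zero_mul]

end Data

end Pool.Agent.U213.EC
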