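import Mathlib
import Pool.Agent.U213.EC.Main

/-!
# Descent of the coefficient field
-/

set_option autoImplicit false
set_option linter.unusedSectionVars false

open Filter Topology

namespace Pool.Agent.U213.EC

open Pool.Agent.R389 Pool.Agent.H302R2 Pool.Agent.H541R3.ART Pool.Agent.W446.AS

section

variable {E E' : Type} [Field E] [NumberField E] [Field E'] [NumberField E'] [Algebra E E']

lemma extend (τ : E →+* ℂ) : ∃ τ' : E' →+* ℂ, ∀ x : E, τ' (algebraMap E E' x) = τ x := by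
  let _ := τ.toAlgebra
  have : FiniteDimensional E E' := Module.Finite.of_restrictScalars_finite ℚ E E'
  let φ : E' →ₐ[E] ℂ := IsAlgClosed.lift
  exact ⟨φ.toRingHom, fun x => φ.commutes x⟩

lemma mem_of_agree (e' : E') (h : ∀ τ τ' : E' →+* ℂ,
    (∀ x : E, τ (algebraMap E E' x) = τ' (algebraMap E E' x)) → τ e' = τ' e') :
    ∃ e : E, algebraMap E E' e = e' := by
  classical
  obtain ⟨τ₀⟩ : Nonempty (E →+* ℂ) := inferInstance
  let _ := τ₀.toAlgebra
  have : FiniteDimensional E E' := Module.Finite.of_restrictScalars_finite ℚ E E'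
  have hint : IsIntegral E e' := Algebra.IsIntegral.isIntegral e'
  have h1 := Algebra.IsAlgebraic.range_eval_eq_rootSet_minpoly (F := E) (K := E') ℂ e'
  let φ : E' →ₐ[E] ℂ := IsAlgClosed.lift
  have h2 : (Set.range fun ψ : E' →ₐ[E] ℂ => ψ e') = {φ e'} := by
    ext z
    constructor
    · rintro ⟨ψ, rfl⟩
      exact h ψ.toRingHom φ.toRingHom fun x => by
        change ψ (algebraMap E E' x) = φ (algebraMap E E' x)
        rw [ψ.commutes, φ.commutes]
    · rintro rfl
      exact ⟨φ, rfl⟩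
  rw [h2] at h1
  have h3 : Fintype.card ((minpoly E e').rootSet ℂ) = (minpoly E e').natDegree :=
    Polynomial.card_rootSet_eq_natDegree (minpoly.irreducible hint).separable
      (IsAlgClosed.splits _)
  have h4 : Fintype.card ((minpoly E e').rootSet ℂ) = 1 := by
    rw [← Nat.card_eq_fintype_card, ← h1]
    simp
  rw [h4] at h3
  have h5 := minpoly.natDegree_eq_one_iff.mp h3.symm
  obtain ⟨e, he⟩ := h5
  exact ⟨e, he⟩

end

namespace Data

variable {F₀ : Type} [Field F₀] [NumberField F₀] [IsGalois ℚ F₀] {D : Data F₀}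

theorem deligne_descend {E E' : Type} [Field E] [NumberField E] [Field E'] [NumberField E']
    [Algebra E E'] {n : ℕ} (ρ : D.G →* Matrix (Fin n) (Fin n) E)
    (h : D.Deligne ((algebraMap E E').mapMatrix.toMonoidHom.comp ρ)) : D.Deligne ρ := by
  obtain ⟨e', he'⟩ := h
  have key : ∀ τ : E' →+* ℂ, ∃ ℓ : ℂ → ℂ,
      D.IsL (fun σ => τ (algebraMap E E' (ρ σ).trace)) ℓ ∧ Tendsto ℓ (𝓝[≠] 1)
        (𝓝 (τ e' * D.period (bc (τ.comp (algebraMap E E')) ρ))) := by
    intro τ
    obtain ⟨ℓ, h1, h2⟩ := he' τ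
    refine ⟨ℓ, ?_, ?_⟩
    · convert h1 using 4 with σ
      change _ = ((ρ σ).map (algebraMap E E')).trace
      rw [Matrix.trace, Matrix.trace, map_sum]
      rfl
    · convert h2 using 4
      exact MonoidHom.ext fun g => Matrix.ext fun i j => rfl
  obtain ⟨e, he⟩ := mem_of_agree (E := E) e' fun τ τ' hττ' => by
    obtain ⟨ℓ, h1, h2⟩ := key τ
    obtain ⟨ℓ', h1', h2'⟩ := key τ'
    have h3 : τ.comp (algebraMap E E') = τ'.comp (algebraMap E E') := RingHom.ext hττ'
    have h4 : (fun σ => τ' (algebraMap E E' (ρ σ).trace))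
        = fun σ => τ (algebraMap E E' (ρ σ).trace) := funext fun σ => (hττ' _).symm
    rw [h4] at h1'
    rw [← h3] at h2'
    have h5 := tendsto_nhds_unique (h2.congr' (h1.unique h1' 1)) h2'
    exact mul_right_cancel₀ (D.period_ne _) h5
  refine ⟨e, fun τ => ?_⟩
  obtain ⟨τ', hτ'⟩ := extend (E' := E') τ
  obtain ⟨ℓ, h1, h2⟩ := key τ'
  refine ⟨ℓ, ?_, ?_⟩
  · simp only [hτ'] at h1
    exact h1
  · have h3 : τ'.comp (algebraMap E E') = τ := RingHom.ext hτ'
    rw [h3, ← he, hτ'] at h2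
    exact h2

/-- It is enough to consider coefficient fields which contain enough roots of unity. -/
theorem of_large (h : ∀ (E : Type) [Field E] [NumberField E] (ζ : E),
      IsPrimitiveRoot ζ (Monoid.exponent D.G) → ∀ (n : ℕ) (ρ : D.G →* Matrix (Fin n) (Fin n) E),
      D.Deligne ρ) (E : Type) [Field E] [NumberField E] (n : ℕ)
    (ρ : D.G →* Matrix (Fin n) (Fin n) E) : D.Deligne ρ := by
  have : NeZero (Monoid.exponent D.G) := ⟨D.exp_pos.ne'⟩
  have hN : NumberField (CyclotomicField (Monoid.exponent D.G) E) :=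
    IsCyclotomicExtension.numberField {Monoid.exponent D.G} E _
  exact deligne_descend (E' := CyclotomicField (Monoid.exponent D.G) E) ρ
    (h _ _ (IsCyclotomicExtension.zeta_spec (Monoid.exponent D.G) E _) _ _)

/-- **The bridge.** For an elliptic curve over `ℚ` with complex multiplication the published theorem
`MonomialTheorem` gives the L-functions `ℓ χ` of the twists by the irreducible characters `χ` and the abstract
form (`R389.Deligne`) of Deligne's conjecture at `1` for the monomial characters, with the periods `D.P χ`.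
If the abstract form follows for the character of every representation over the fields with enough roots of
unity, then Deligne's conjecture holds for all representations over all number fields. -/
theorem bridge (hM : MonomialTheorem) {F₀ : Type} [Field F₀] [NumberField F₀] [IsGalois ℚ F₀] (D : Data F₀) (cm : D.CM)
    (h : ∀ (E : Type) [Field E] [NumberField E] (ζ : E), IsPrimitiveRoot ζ (Monoid.exponent D.G) →
      ∀ ℓ : (D.G → ℂ) → ℂ → ℂ, (∀ χ ∈ Irr D.G, D.IsL χ (ℓ χ)) →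
      (∀ χ ∈ Irr D.G, MeromorphicAt (ℓ χ) 1 ∧ meromorphicOrderAt (ℓ χ) 1 ≠ ⊤) →
      (∀ χ ∈ Irr D.G, D.P χ ≠ 0) →
      (∀ (U : Subgroup D.G) (ψ : U →* Eˣ),
        R389.Deligne (fun _ : E →+* ℂ => ℓ) (fun _ => D.P) 1 (ind U (fun u => ((ψ u : Eˣ) : E)))) →
      ∀ (n : ℕ) (ρ : Representation E D.G (Fin n → E)),
        R389.Deligne (fun _ : E →+* ℂ => ℓ) (fun _ => D.P) 1 ρ.character)
    (E : Type) [Field E] [NumberField E] (n : ℕ) (ρ : D.G →* Matrix (Fin n) (Fin n) E) :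
    D.Deligne ρ := by
  refine of_large (fun E _ _ ζ hζ n ρ => ?_) E n ρ
  obtain ⟨τ₀⟩ : Nonempty (E →+* ℂ) := inferInstance
  have hex : ∀ χ ∈ Irr D.G, ∃ ℓ, D.IsL χ ℓ := fun χ hχ =>
    exists_isL hζ τ₀ (fun U ψ n ρ hρ => hM _ D cm E U ψ n ρ hρ) (AddSubgroup.subset_closure hχ)
  choose! ℓ hℓ using hex
  rw [deligne_iff hζ hℓ]
  have h3 := h E ζ hζ ℓ hℓ (fun χ hχ => ⟨(hℓ χ hχ).1 1, (hℓ χ hχ).order_ne 1⟩)
    (fun χ hχ => D.P_ne hχ) (fun U ψ => ?_) n (toRep ρ)
  · have h4 : (toRep ρ).character = fun g => (ρ g).trace := funext fun g => toRep_char ρ g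
    rwa [h4] at h3
  · obtain ⟨n', ρ', hρ'⟩ := exists_induced U ψ
    have h4 := (deligne_iff hζ hℓ ρ').mp (hM _ D cm E U ψ n' ρ' hρ')
    have h5 : (fun g => (ρ' g).trace) = ind U (fun u => ((ψ u : Eˣ) : E)) := funext hρ'
    rwa [h5] at h4

/-- the order at `c` of the product of the L-functions of the constituents of `f` is the order of the
L-function of `f` -/
lemma order_decomp {F₀ : Type} [Field F₀] [NumberField F₀] [IsGalois ℚ F₀] {D : Data F₀} {ℓ : (D.G → ℂ) → ℂ → ℂ} (hℓ : ∀ χ ∈ Irr D.G, D.IsL χ (ℓ χ))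
    {f : D.G → ℂ} {m : (D.G → ℂ) → ℕ} (hm : IsDecomp f m) {ℓ₀ : ℂ → ℂ} (h : D.IsL f ℓ₀) (c : ℂ) :
    meromorphicOrderAt (fun s => ∏ᶠ χ ∈ Irr D.G, ℓ χ s ^ m χ) c = meromorphicOrderAt ℓ₀ c :=
  meromorphicOrderAt_congr ((isL_decomp hℓ hm).unique h c)

/-- the degrees of the irreducible characters -/
lemma exists_deg {F₀ : Type} [Field F₀] [NumberField F₀] [IsGalois ℚ F₀] (D : Data F₀) : ∃ deg : (D.G → ℂ) → ℕ, ∀ χ ∈ Irr D.G, χ 1 = deg χ := by
  have hdeg : ∀ χ ∈ Irr D.G, ∃ d : ℕ, χ 1 = d := by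
    intro χ hχ
    obtain ⟨n, ρ, -, rfl⟩ := hχ
    exact ⟨_, ρ.char_one⟩
  choose! deg hdeg using hdeg
  exact ⟨deg, hdeg⟩

/-- **CM elliptic curves, order at most two.** -/
theorem main_two' (hM : MonomialTheorem) (hS : SymplecticParity) {F₀ : Type} [Field F₀] [NumberField F₀] [IsGalois ℚ F₀] (D : Data F₀) (cm : D.CM)
    {ℓ₀ : ℂ → ℂ} (hℓ₀ : D.IsL D.reg ℓ₀) (h2 : meromorphicOrderAt ℓ₀ 1 ≤ 2)
    (E : Type) [Field E] [NumberField E] (n : ℕ) (ρ : D.G →* Matrix (Fin n) (Fin n) E) :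
    D.Deligne ρ := by
  classical
  refine bridge hM D cm (fun E _ _ ζ hζ ℓ hℓ hL hP hmon n ρ => ?_) E n ρ
  obtain ⟨τ₀⟩ : Nonempty (E →+* ℂ) := inferInstance
  obtain ⟨deg, hdeg⟩ := exists_deg D
  refine main_two (L := fun _ : E →+* ℂ => ℓ) (P := fun _ => D.P) (c := 1) hζ (fun _ => hL)
    (fun _ => hP) hmon τ₀ hdeg ?_ ?_ ρ
  · rw [order_decomp hℓ (reg_decomp hdeg) hℓ₀]
    exact h2
  · intro H f hf m hm h1
    obtain ⟨k, hk⟩ := hS _ D cm H f hf _ (isL_decomp hℓ hm)
    rw [h1] at hk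
    have h5 : (1 : ℤ) = 2 * k := by exact_mod_cast hk
    omega

end Data

end Pool.Agent.U213.EC
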