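import Mathlib
import Pool.Agent.U213.EC.Desc

/-!
# Extensions `L / k` of number fields inside `F`: induction from a quotient of a subgroup
-/

set_option autoImplicit false
set_option linter.unusedSectionVars false

open Filter Topology

namespace Pool.Agent.U213.EC

open Pool.Agent.R389 Pool.Agent.H302R2 Pool.Agent.H541R3.ART Pool.Agent.W446.AS

section group

variable {G : Type} [Group G] [Finite G] (H : Subgroup G) {Q : Type} [Group Q] [Finite Q]
  (π : H →* Q)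

/-- inflation to `H` and induction to `G` -/
noncomputable def up {k : Type} [Field k] (f : Q → k) : G → k := ind H (fun h => f (π h))

lemma up_map {k k' : Type} [Field k] [Field k'] (τ : k →+* k') (f : Q → k) (g : G) :
    τ (up H π f g) = up H π (fun q => τ (f q)) g := by
  rw [up, up, ind_map]

lemma up_add (f f' : Q → ℂ) : up H π (f + f') = up H π f + up H π f' := by
  rw [up, up, up, ← ind_add]
  rfl

lemma up_zero : up H π (0 : Q → ℂ) = 0 := ind_zero H

/-- the induction as an additive map -/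
noncomputable def upHom : (Q → ℂ) →+ (G → ℂ) where
  toFun := up H π
  map_zero' := up_zero H π
  map_add' := up_add H π

lemma upHom_apply (f : Q → ℂ) : upHom H π f = up H π f := rfl

lemma up_class (f : Q → ℂ) (g x : G) : up H π f (x * g * x⁻¹) = up H π f g := ind_class H _ g x

/-- characters are induced to characters -/
lemma up_decomp {χ : Q → ℂ} (hχ : χ ∈ Irr Q) : ∃ m, IsDecomp (up H π χ) m := by
  classical
  have h1 : (fun h => χ (π h)) ∈ AddSubmonoid.closure (Irr H) := by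
    obtain ⟨n, ρ, -, rfl⟩ := hχ
    exact char_memP _ (ρ.comp π) rfl
  have h2 : ∀ η ∈ Irr G, ∃ k : ℕ, pr (up H π χ) η = k := by
    intro η hη
    rw [up, frob H _ (Irr.conj hη)]
    refine nat_closure (fun a ha => ?_) h1
    rw [pr_comm]
    refine nat_closure (fun b hb => ?_) (res_memP hη)
    by_cases he : b = a
    · exact ⟨1, by rw [he, pr_self ha]; simp⟩
    · exact ⟨0, by rw [pr_ne hb ha he]; simp⟩
  choose! m hm using h2
  exact ⟨m, IsDecomp.of_pr (up_class H π χ) hm⟩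

/-- the decomposition of an induced function -/
lemma up_isDecomp {M : (Q → ℂ) → (G → ℂ) → ℕ} (hM : ∀ χ ∈ Irr Q, IsDecomp (up H π χ) (M χ))
    {f : Q → ℂ} {m : (Q → ℂ) → ℕ} (hm : IsDecomp f m) :
    IsDecomp (up H π f) (fun η => ∑ χ ∈ irrF Q, m χ * M χ η) := by
  classical
  intro g
  have h1 : f = ∑ χ ∈ irrF Q, m χ • χ := by
    funext q
    have h2 : f q = ∑ᶠ χ ∈ Irr Q, (m χ : ℂ) * χ q := hm q
    rw [h2, finsum_irr (fun χ => (m χ : ℂ) * χ q), Finset.sum_apply]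
    refine Finset.sum_congr rfl fun χ _ => ?_
    rw [Pi.smul_apply, nsmul_eq_mul]
  rw [h1, ← upHom_apply, map_sum, Finset.sum_apply]
  have h3 : ∀ χ ∈ irrF Q, (upHom H π (m χ • χ)) g
      = ∑ η ∈ irrF G, ((m χ * M χ η : ℕ) : ℂ) * η g := by
    intro χ hχ
    rw [map_nsmul, Pi.smul_apply, upHom_apply, hM χ (mem_irrF.mp hχ) g,
      finsum_irr (fun η => (M χ η : ℂ) * η g), nsmul_eq_mul, Finset.mul_sum]
    refine Finset.sum_congr rfl fun η _ => ?_
    push_cast
    ring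
  rw [Finset.sum_congr rfl h3, Finset.sum_comm,
    finsum_irr (fun η => ((∑ χ ∈ irrF Q, m χ * M χ η : ℕ) : ℂ) * η g)]
  refine Finset.sum_congr rfl fun η _ => ?_
  push_cast
  rw [Finset.sum_mul]

lemma prod_up (M : (Q → ℂ) → (G → ℂ) → ℕ) (m : (Q → ℂ) → ℕ) (a : (G → ℂ) → ℂ) :
    ∏ᶠ η ∈ Irr G, a η ^ (∑ χ ∈ irrF Q, m χ * M χ η)
      = ∏ᶠ χ ∈ Irr Q, (∏ᶠ η ∈ Irr G, a η ^ M χ η) ^ m χ := by
  classical
  rw [finprod_irr (fun η => a η ^ (∑ χ ∈ irrF Q, m χ * M χ η)),
    finprod_irr (fun χ => (∏ᶠ η ∈ Irr G, a η ^ M χ η) ^ m χ)]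
  have h1 : ∀ χ ∈ irrF Q, (∏ᶠ η ∈ Irr G, a η ^ M χ η) ^ m χ
      = ∏ η ∈ irrF G, a η ^ (m χ * M χ η) := by
    intro χ _
    rw [finprod_irr (fun η => a η ^ M χ η), ← Finset.prod_pow]
    refine Finset.prod_congr rfl fun η _ => ?_
    rw [← pow_mul, mul_comm]
  rw [Finset.prod_congr rfl h1, Finset.prod_comm]
  refine Finset.prod_congr rfl fun η _ => ?_
  rw [Finset.prod_pow_eq_pow_sum]

/-- **Deligne's conjecture for the extension `L / k` and for `F / ℚ`.** -/
theorem deligne_up {E : Type} [Field E] {ℓ : (G → ℂ) → ℂ → ℂ} {P : (G → ℂ) → ℂ} {c : ℂ}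
    {M : (Q → ℂ) → (G → ℂ) → ℕ} (hM : ∀ χ ∈ Irr Q, IsDecomp (up H π χ) (M χ)) {f : Q → E}
    (hf : ∀ τ : E →+* ℂ, ∃ m, IsDecomp (fun q => τ (f q)) m) :
    R389.Deligne (fun _ : E →+* ℂ => ℓ) (fun _ => P) c (up H π f) ↔
    R389.Deligne (fun _ : E →+* ℂ => fun χ s => ∏ᶠ η ∈ Irr G, ℓ η s ^ M χ η)
      (fun _ χ => ∏ᶠ η ∈ Irr G, P η ^ M χ η) c f := by
  have hup : ∀ τ : E →+* ℂ, (fun g => τ (up H π f g)) = up H π (fun q => τ (f q)) :=
    fun τ => funext fun g => up_map H π τ f g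
  constructor
  · rintro ⟨e, he⟩
    refine ⟨e, fun τ m hm => ?_⟩
    have h1 := he τ _ (by rw [hup]; exact up_isDecomp H π hM hm)
    simp only [prod_up] at h1
    exact h1
  · rintro ⟨e, he⟩
    refine ⟨e, fun τ m' hm' => ?_⟩
    obtain ⟨m, hm⟩ := hf τ
    have h1 := he τ m hm
    simp only [← prod_up] at h1
    rw [hup] at hm'
    have h2 := up_isDecomp H π hM hm
    have h3 : ∀ η ∈ Irr G, m' η = ∑ χ ∈ irrF Q, m χ * M χ η := by
      intro η hη
      have h4 := hm'.pr hη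
      rw [h2.pr hη] at h4
      exact_mod_cast h4.symm
    have h4 : ∀ a : (G → ℂ) → ℂ, ∏ᶠ η ∈ Irr G, a η ^ m' η
        = ∏ᶠ η ∈ Irr G, a η ^ (∑ χ ∈ irrF Q, m χ * M χ η) := by
      intro a
      refine finprod_mem_congr rfl fun η hη => ?_
      rw [h3 η hη]
    rw [h4]
    refine h1.congr fun s => ?_
    rw [← h4]

end group

end Pool.Agent.U213.EC
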