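import Mathlib
import Pool.Agent.U213.EC.Up

/-!
# The bridge for the extensions `L / k` of number fields inside `F`
-/

set_option autoImplicit false
set_option linter.unusedSectionVars false

open Filter Topology

namespace Pool.Agent.U213.EC

open Pool.Agent.R389 Pool.Agent.H302R2 Pool.Agent.H541R3.ART Pool.Agent.W446.AS

section group

variable {G : Type} [Group G] [Finite G] (H : Subgroup G) {Q : Type} [Group Q] [Finite Q]
  (π : H →* Q)

/-- the restriction of `π` to the preimage of a subgroup -/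
def pre (U : Subgroup Q) : U.comap π →* U where
  toFun h := ⟨π h, h.2⟩
  map_one' := by apply Subtype.ext; simp
  map_mul' a b := by apply Subtype.ext; simp

lemma pre_surj (hπ : Function.Surjective π) (U : Subgroup Q) :
    Function.Surjective (pre H π U) := by
  rintro ⟨y, hy⟩
  obtain ⟨g, rfl⟩ := hπ y
  exact ⟨⟨g, hy⟩, rfl⟩

/-- the preimage of a subgroup of `Q` as a subgroup of `G` -/
abbrev preG (U : Subgroup Q) : Subgroup G := (U.comap π).map H.subtype

/-- the homomorphism from the preimage -/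
noncomputable def preGHom (U : Subgroup Q) : preG H π U →* U :=
  (pre H π U).comp
    ((U.comap π).equivMapOfInjective H.subtype H.subtype_injective).symm.toMonoidHom

lemma preG_surj (hπ : Function.Surjective π) (U : Subgroup Q) :
    Function.Surjective (preGHom H π U) :=
  (pre_surj H π hπ U).comp
    ((U.comap π).equivMapOfInjective H.subtype H.subtype_injective).symm.surjective

/-- induction in stages -/
lemma up_ind (hπ : Function.Surjective π) (U : Subgroup Q) (F : U → ℂ) :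
    up H π (ind U F) = ind (preG H π U) (fun y => F (preGHom H π U y)) := by
  rw [up, ind_comap hπ U F, ind_ind]
  rfl

lemma up_indE (hπ : Function.Surjective π) {E : Type} [Field E] (τ₀ : E →+* ℂ) (U : Subgroup Q)
    (ψ : U →* Eˣ) : up H π (ind U (fun u => ((ψ u : Eˣ) : E)))
      = ind (preG H π U) (fun y => (((ψ.comp (preGHom H π U)) y : Eˣ) : E)) := by
  funext g
  apply τ₀.injective
  rw [up_map, ind_map]
  have h1 : (fun q => τ₀ (ind U (fun u => ((ψ u : Eˣ) : E)) q))
      = ind U (fun u => τ₀ ((ψ u : Eˣ) : E)) := funext fun q => ind_map τ₀ U _ q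
  rw [h1, up_ind H π hπ]
  rfl

end group

namespace Data

lemma order_up {F₀ : Type} [Field F₀] [NumberField F₀] [IsGalois ℚ F₀] {D : Data F₀} {ℓ : (D.G → ℂ) → ℂ → ℂ} (hℓ : ∀ χ ∈ Irr D.G, D.IsL χ (ℓ χ))
    (H : Subgroup D.G) {Q : Type} [Group Q] [Finite Q] (π : H →* Q)
    {M : (Q → ℂ) → (D.G → ℂ) → ℕ} (hM : ∀ χ ∈ Irr Q, IsDecomp (up H π χ) (M χ))
    {f : Q → ℂ} {m : (Q → ℂ) → ℕ} (hm : IsDecomp f m) :
    D.IsL (up H π f) (fun s => ∏ᶠ χ ∈ Irr Q, (∏ᶠ η ∈ Irr D.G, ℓ η s ^ M χ η) ^ m χ) := by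
  have h1 := isL_decomp hℓ (up_isDecomp H π hM hm)
  simp only [prod_up] at h1
  exact h1

/-- **The bridge** for the extension `L / k`, where `k` is the fixed field of `H` and `L` is the one of the
kernel of `π`: it is enough to prove the abstract form of Deligne's conjecture for the group `Q` of
`L / k`. -/
theorem bridgeQ (hM : MonomialTheorem) {F₀ : Type} [Field F₀] [NumberField F₀] [IsGalois ℚ F₀] (D : Data F₀) (cm : D.CM) (H : Subgroup D.G) {Q : Type}
    [Group Q] [Finite Q] (π : H →* Q) (hπ : Function.Surjective π)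
    (h : ∀ (E : Type) [Field E] [NumberField E] (ζ : E), IsPrimitiveRoot ζ (Monoid.exponent Q) →
      ∀ (ℓ : (Q → ℂ) → ℂ → ℂ) (P : (Q → ℂ) → ℂ),
      (∀ χ ∈ Irr Q, MeromorphicAt (ℓ χ) 1 ∧ meromorphicOrderAt (ℓ χ) 1 ≠ ⊤) →
      (∀ χ ∈ Irr Q, P χ ≠ 0) →
      (∀ (f : Q → ℂ) (m : (Q → ℂ) → ℕ), IsDecomp f m →
        D.IsL (up H π f) (fun s => ∏ᶠ χ ∈ Irr Q, ℓ χ s ^ m χ)) →
      (∀ (U : Subgroup Q) (ψ : U →* Eˣ),
        R389.Deligne (fun _ : E →+* ℂ => ℓ) (fun _ => P) 1 (ind U (fun u => ((ψ u : Eˣ) : E)))) →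
      ∀ (n : ℕ) (ρ : Representation E Q (Fin n → E)),
        R389.Deligne (fun _ : E →+* ℂ => ℓ) (fun _ => P) 1 ρ.character)
    (E : Type) [Field E] [NumberField E] (n : ℕ) (ρ : Q →* Matrix (Fin n) (Fin n) E)
    (m : ℕ) (σ : D.G →* Matrix (Fin m) (Fin m) E)
    (hσ : ∀ g, (σ g).trace = up H π (fun q => (ρ q).trace) g) : D.Deligne σ := by
  classical
  -- enough roots of unity
  have key : ∀ (E : Type) [Field E] [NumberField E] (ζ : E),
      IsPrimitiveRoot ζ (Monoid.exponent D.G) → ∀ (n : ℕ) (ρ : Q →* Matrix (Fin n) (Fin n) E)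
      (m : ℕ) (σ : D.G →* Matrix (Fin m) (Fin m) E),
      (∀ g, (σ g).trace = up H π (fun q => (ρ q).trace) g) → D.Deligne σ := by
    intro E _ _ ζ hζ n ρ m σ hσ
    obtain ⟨τ₀⟩ : Nonempty (E →+* ℂ) := inferInstance
    have hex : ∀ χ ∈ Irr D.G, ∃ ℓ, D.IsL χ ℓ := fun χ hχ =>
      exists_isL hζ τ₀ (fun U ψ n ρ hρ => hM _ D cm E U ψ n ρ hρ) (AddSubgroup.subset_closure hχ)
    choose! ℓ hℓ using hex
    have hmon : ∀ (U : Subgroup D.G) (ψ : U →* Eˣ),
        R389.Deligne (fun _ : E →+* ℂ => ℓ) (fun _ => D.P) 1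
          (ind U (fun u => ((ψ u : Eˣ) : E))) := by
      intro U ψ
      obtain ⟨n', ρ', hρ'⟩ := exists_induced U ψ
      have h4 := (deligne_iff hζ hℓ ρ').mp (hM _ D cm E U ψ n' ρ' hρ')
      have h5 : (fun g => (ρ' g).trace) = ind U (fun u => ((ψ u : Eˣ) : E)) := funext hρ'
      rwa [h5] at h4
    rw [deligne_iff hζ hℓ]
    have h1 : (fun g => (σ g).trace) = up H π (fun q => (ρ q).trace) := funext hσ
    rw [h1]
    have hMex : ∀ χ ∈ Irr Q, ∃ m, IsDecomp (up H π χ) m := fun χ hχ => up_decomp H π hχ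
    choose! M hM' using hMex
    have hdec : ∀ (τ : E →+* ℂ), ∃ m, IsDecomp (fun q => τ (ρ q).trace) m := by
      intro τ
      obtain ⟨m, hm⟩ := exists_decomp (bc τ ρ)
      have h2 : (fun q => (bc τ ρ q).trace) = fun q => τ (ρ q).trace :=
        funext fun q => bc_trace τ ρ q
      rw [h2] at hm
      exact ⟨m, hm⟩
    rw [deligne_up H π hM' hdec]
    have hdvd : Monoid.exponent Q ∣ Monoid.exponent D.G := by
      refine Monoid.exponent_dvd_of_forall_pow_eq_one fun q => ?_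
      obtain ⟨x, rfl⟩ := hπ q
      rw [← map_pow]
      have : x ^ Monoid.exponent D.G = 1 := by
        apply Subtype.ext
        rw [Subgroup.coe_pow, Monoid.pow_exponent_eq_one]
        rfl
      rw [this, map_one]
    obtain ⟨a, ha⟩ := hdvd
    have hζ' : IsPrimitiveRoot (ζ ^ a) (Monoid.exponent Q) :=
      hζ.pow D.exp_pos (by rw [ha, mul_comm])
    have hLQ : ∀ (f : Q → ℂ) (m : (Q → ℂ) → ℕ), IsDecomp f m →
        D.IsL (up H π f) (fun s => ∏ᶠ χ ∈ Irr Q, (∏ᶠ η ∈ Irr D.G, ℓ η s ^ M χ η) ^ m χ) :=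
      fun f m hm => order_up hℓ H π hM' hm
    have h3 := h E (ζ ^ a) hζ' (fun χ s => ∏ᶠ η ∈ Irr D.G, ℓ η s ^ M χ η)
      (fun χ => ∏ᶠ η ∈ Irr D.G, D.P η ^ M χ η) ?_ ?_ hLQ ?_ n (toRep ρ)
    · have h4 : (toRep ρ).character = fun g => (ρ g).trace := funext fun g => toRep_char ρ g
      rwa [h4] at h3
    · intro χ hχ
      have h4 := isL_decomp hℓ (hM' χ hχ)
      exact ⟨h4.1 1, h4.order_ne 1⟩
    · intro χ hχ
      rw [finprod_irr (fun η => D.P η ^ M χ η)]
      exact Finset.prod_ne_zero_iff.mpr fun η hη => pow_ne_zero _ (D.P_ne (mem_irrF.mp hη))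
    · intro U ψ
      have h4 : ∀ τ : E →+* ℂ, ∃ m, IsDecomp (fun q => τ (ind U (fun u => ((ψ u : Eˣ) : E)) q)) m := by
        intro τ
        obtain ⟨m, hm⟩ := ind_isDecomp U ((Units.map τ.toMonoidHom).comp ψ)
        refine ⟨m, ?_⟩
        have h5 : (fun q => τ (ind U (fun u => ((ψ u : Eˣ) : E)) q))
            = ind U (fun h => ((((Units.map τ.toMonoidHom).comp ψ) h : ℂˣ) : ℂ)) := by
          funext g
          rw [ind_map]
          rfl
        rw [h5]
        exact hm
      rw [← deligne_up H π hM' h4, up_indE H π hπ τ₀]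
      exact hmon _ _
  have : NeZero (Monoid.exponent D.G) := ⟨D.exp_pos.ne'⟩
  have hN : NumberField (CyclotomicField (Monoid.exponent D.G) E) :=
    IsCyclotomicExtension.numberField {Monoid.exponent D.G} E _
  let E' := CyclotomicField (Monoid.exponent D.G) E
  refine deligne_descend (E' := E') σ
    (key E' _ (IsCyclotomicExtension.zeta_spec (Monoid.exponent D.G) E _) n
      ((algebraMap E E').mapMatrix.toMonoidHom.comp ρ) m _ fun g => ?_)
  have h1 : ∀ {X : Type} [Group X] {l : ℕ} (r : X →* Matrix (Fin l) (Fin l) E) (x : X),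
      (((algebraMap E E').mapMatrix.toMonoidHom.comp r) x).trace = algebraMap E E' (r x).trace := by
    intro X _ l r x
    change ((r x).map (algebraMap E E')).trace = _
    rw [Matrix.trace, Matrix.trace, map_sum]
    rfl
  simp only [h1]
  rw [hσ, up_map]

end Data

end Pool.Agent.U213.EC
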