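import Mathlib
import Pool.Agent.R389.SmallMain
import Pool.Agent.R389.Simple
import Pool.Agent.U213.EC.Desc

/-!
# Solvable normal subgroups and small growth of the order
-/

set_option autoImplicit false
set_option linter.unusedSectionVars false

open Filter Topology
open scoped commutatorElement

namespace Pool.Agent.U213.EC

open Pool.Agent.R389 Pool.Agent.H302R2 Pool.Agent.H541R3.ART Pool.Agent.W446.AS

section

variable {G : Type} [Group G] [Finite G]

/-- characters which are invariant under `K` are sums of irreducible ones which are -/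
lemma closure_inv (K : Subgroup G) [K.Normal] {f : G → ℂ} (hf : f ∈ AddSubmonoid.closure (Irr G))
    (hK : ∀ g, ∀ k ∈ K, f (g * k) = f g) :
    f ∈ AddSubmonoid.closure {χ : G → ℂ | χ ∈ Irr G ∧ ∀ k ∈ K, χ k = χ 1} := by
  have h1 : AddSubmonoid.closure (Irr G) ≤
      (AddSubmonoid.closure {χ : G → ℂ | χ ∈ Irr G ∧ ∀ k ∈ K, χ k = χ 1}).comap
        (invHom K : (G → ℂ) →+ (G → ℂ)) := by
    rw [AddSubmonoid.closure_le]
    intro χ hχ
    rw [SetLike.mem_coe, AddSubmonoid.mem_comap, invHom_apply]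
    rcases irr_inv K hχ with h | ⟨-, h⟩
    · rw [inv_of_const K h]
      exact AddSubmonoid.subset_closure ⟨hχ, fun k hk => by
        have := h 1 k hk
        rwa [one_mul] at this⟩
    · rw [h]
      exact zero_mem _
  have h2 := h1 hf
  rw [AddSubmonoid.mem_comap, invHom_apply, inv_of_const K hK] at h2
  exact h2

/-- irreducible characters trivial on the commutator subgroup are linear -/
lemma mono_of_commutator {χ : G → ℂ} (hχ : χ ∈ Irr G)
    (h : ∀ k ∈ commutator G, χ k = χ 1) : Mono χ := by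
  classical
  let π : G →* G ⧸ commutator G := QuotientGroup.mk' _
  have hπ : Function.Surjective π := QuotientGroup.mk'_surjective _
  obtain ⟨n, ρ, hρ, rfl⟩ := exists_rep hχ
  have h1 : ∀ g ∈ π.ker, ρ g = 1 := by
    intro g hg
    rw [QuotientGroup.ker_mk'] at hg
    have : Fintype (commutator G) := Fintype.ofFinite _
    rcases hρ.normal_dich (commutator G) with h2 | h2
    · exact h2 g hg
    · exfalso
      have h3 := h2 1
      rcases irr_inv (commutator G) hχ with h4 | ⟨⟨k, hk, h4⟩, -⟩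
      · have h5 : ∀ k : commutator G, ρ.character (1 * (k : G)) = ρ.character 1 :=
          fun k => h4 1 k k.2
        have h6 : ∑ k : commutator G, ρ.character (1 * (k : G)) = 0 := by
          simpa using h3
        rw [Finset.sum_congr rfl (fun k _ => h5 k), Finset.sum_const, nsmul_eq_mul] at h6
        obtain ⟨d, hd, hd1⟩ := irr_deg_pos hχ
        rcases mul_eq_zero.mp h6 with h7 | h7
        · simp at h7
        · rw [hd1] at h7
          have : d = 0 := by exact_mod_cast h7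
          omega
      · exact h4 (h k hk)
  obtain ⟨ψ, hψ, hψ1⟩ := descend_irr hπ hρ h1
  have h2 : Mono ψ := by
    refine mono_abelian (fun a b => ?_) hψ
    obtain ⟨x, rfl⟩ := hπ a
    obtain ⟨y, rfl⟩ := hπ b
    rw [← map_mul, ← map_mul]
    refine (QuotientGroup.eq (s := commutator G)).mpr ?_
    have h3 : (x * y)⁻¹ * (y * x) = ⁅y⁻¹, x⁻¹⁆ := by
      rw [commutatorElement_def]; group
    rw [h3]
    exact Subgroup.commutator_mem_commutator (Subgroup.mem_top _) (Subgroup.mem_top _)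
  have h3 := h2.comp hπ
  have h4 : (fun g => ψ (π g)) = ρ.character := (funext hψ1).symm
  rwa [h4] at h3

end

namespace Data

/-- **CM elliptic curves, small growth of the order.** -/
theorem main_small' (hM : MonomialTheorem) {F₀ : Type} [Field F₀] [NumberField F₀] [IsGalois ℚ F₀] (D : Data F₀) (cm : D.CM) (N : Subgroup D.G) [N.Normal]
    (hN : Group.IsSolvable N)
    (hmono : ∀ χ ∈ Irr D.G, (∀ k ∈ ⁅N, N⁆, χ k = χ 1) →
      ∃ (U : Subgroup D.G) (ψ : U →* ℂˣ), χ = ind U (fun u => ((ψ u : ℂˣ) : ℂ)))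
    (lam : N →* ℂˣ) {ℓ₀ ℓ₁ : ℂ → ℂ} (hℓ₀ : D.IsL D.reg ℓ₀)
    (hℓ₁ : D.IsL (ind N (fun x => ((lam x : ℂˣ) : ℂ))) ℓ₁)
    (hz : ∀ p : ℕ, p.Prime → p ∣ Nat.card N →
      meromorphicOrderAt ℓ₀ 1 < meromorphicOrderAt ℓ₁ 1 + p)
    (E : Type) [Field E] [NumberField E] (n : ℕ) (ρ : D.G →* Matrix (Fin n) (Fin n) E) :
    D.Deligne ρ := by
  classical
  refine bridge hM D cm (fun E _ _ ζ hζ ℓ hℓ hL hP hmon n ρ => ?_) E n ρ
  obtain ⟨τ₀⟩ : Nonempty (E →+* ℂ) := inferInstance
  obtain ⟨deg, hdeg⟩ := exists_deg D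
  obtain ⟨m, hm⟩ := ind_isDecomp N lam
  refine main_small (L := fun _ : E →+* ℂ => ℓ) (P := fun _ => D.P) (c := 1) hζ (fun _ => hL)
    (fun _ => hP) (fun U ψ _ => hmon U ψ) τ₀ hdeg N hN lam hm ?_ ?_ ρ
  · intro p hp hd
    rw [order_decomp hℓ (reg_decomp hdeg) hℓ₀, order_decomp hℓ hm hℓ₁]
    exact hz p hp hd
  · intro W _ _ _ σ hσ
    have hσ' : ∀ k ∈ ⁅N, N⁆, σ k = 1 := fun k hk => LinearMap.ext fun v => hσ k hk v
    have hf := base_change τ₀ σ
    have h1 := closure_inv ⁅N, N⁆ hf (fun g k hk => by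
      change τ₀ (LinearMap.trace E W (σ (g * k))) = τ₀ (LinearMap.trace E W (σ g))
      rw [map_mul, hσ' k hk, mul_one])
    have h2 : AddSubmonoid.closure {χ : D.G → ℂ | χ ∈ Irr D.G ∧ ∀ k ∈ ⁅N, N⁆, χ k = χ 1}
        ≤ MonPA D.G := by
      rw [AddSubmonoid.closure_le]
      rintro χ ⟨hχ, h3⟩
      exact AddSubmonoid.subset_closure (hmono χ hχ h3)
    obtain ⟨fa, ea, ha1, ha2⟩ := monA_del (L := fun _ : E →+* ℂ => ℓ) (P := fun _ => D.P) (c := 1)
      hζ (fun _ => hL) (fun _ => hP) hmon τ₀ (h2 h1)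
    have h3 : σ.character = fa := by
      funext g
      apply τ₀.injective
      rw [ha1]
    rw [h3]
    exact ha2.deligne

/-- **CM elliptic curves, solvable extensions.** -/
theorem main_solvable (hM : MonomialTheorem) {F₀ : Type} [Field F₀] [NumberField F₀] [IsGalois ℚ F₀] (D : Data F₀) (cm : D.CM) (hG : Group.IsSolvable D.G)
    (lam : D.G →* ℂˣ) {ℓ₀ ℓ₁ : ℂ → ℂ} (hℓ₀ : D.IsL D.reg ℓ₀)
    (hℓ₁ : D.IsL (fun σ => ((lam σ : ℂˣ) : ℂ)) ℓ₁)
    (hz : ∀ p : ℕ, p.Prime → p ∣ Nat.card D.G →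
      meromorphicOrderAt ℓ₀ 1 < meromorphicOrderAt ℓ₁ 1 + p)
    (E : Type) [Field E] [NumberField E] (n : ℕ) (ρ : D.G →* Matrix (Fin n) (Fin n) E) :
    D.Deligne ρ := by
  classical
  have hN : Group.IsSolvable (⊤ : Subgroup D.G) := inferInstance
  have h1 : ind (⊤ : Subgroup D.G) (fun x => (((lam.comp (⊤ : Subgroup D.G).subtype) x : ℂˣ) : ℂ))
      = fun σ => ((lam σ : ℂˣ) : ℂ) := by
    funext g
    rw [ind_eq]
    have h2 : ∀ x : D.G, ext (⊤ : Subgroup D.G)
        (fun x => (((lam.comp (⊤ : Subgroup D.G).subtype) x : ℂˣ) : ℂ)) (x⁻¹ * g * x)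
        = ((lam g : ℂˣ) : ℂ) := by
      intro x
      rw [ext_mem _ _ (Subgroup.mem_top _)]
      change ((lam (x⁻¹ * g * x) : ℂˣ) : ℂ) = _
      rw [map_mul, map_mul, map_inv, mul_comm, ← mul_assoc, mul_inv_cancel, one_mul]
    rw [Finset.sum_congr rfl (fun x _ => h2 x), Finset.sum_const, Finset.card_univ, nsmul_eq_mul,
      Subgroup.card_top, ← Nat.card_eq_fintype_card, ← mul_assoc, inv_mul_cancel₀ card_ne, one_mul]
  refine main_small' hM D cm ⊤ hN (fun χ hχ h => ?_) (lam.comp (⊤ : Subgroup D.G).subtype) hℓ₀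
    (by rw [h1]; exact hℓ₁) (fun p hp hd => hz p hp (by rwa [Subgroup.card_top] at hd)) E n ρ
  exact mono_of_commutator hχ h

end Data

end Pool.Agent.U213.EC
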