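import Mathlib
import Pool.Agent.U213.EC.Over
import Pool.Agent.U213.EC.Sol

/-!
# The main theorems for the extensions `L / k` of number fields inside `F`
-/

set_option autoImplicit false
set_option linter.unusedSectionVars false

open Filter Topology

namespace Pool.Agent.U213.EC

open Pool.Agent.R389 Pool.Agent.H302R2 Pool.Agent.H541R3.ART Pool.Agent.W446.AS

section group

variable {Q : Type} [Group Q] [Finite Q]

lemma regQ_decomp {deg : (Q → ℂ) → ℕ} (hdeg : ∀ χ ∈ Irr Q, χ 1 = deg χ) :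
    IsDecomp (ind (⊥ : Subgroup Q) (fun _ => (1 : ℂ))) deg := by
  classical
  refine IsDecomp.of_pr (fun g x => ind_class _ _ g x) fun χ hχ => ?_
  rw [frob _ _ (Irr.conj hχ), pr_eq]
  have : Unique (⊥ : Subgroup Q) := inferInstance
  rw [Fintype.sum_unique]
  have h1 : ((default : (⊥ : Subgroup Q))⁻¹ : (⊥ : Subgroup Q)) = 1 := Subsingleton.elim _ _
  rw [h1, Nat.card_unique]
  simp [hdeg χ hχ]

lemma exists_degQ : ∃ deg : (Q → ℂ) → ℕ, ∀ χ ∈ Irr Q, χ 1 = deg χ := by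
  have hdeg : ∀ χ ∈ Irr Q, ∃ d : ℕ, χ 1 = d := by
    intro χ hχ
    obtain ⟨n, ρ, -, rfl⟩ := hχ
    exact ⟨_, ρ.char_one⟩
  choose! deg hdeg using hdeg
  exact ⟨deg, hdeg⟩

lemma ker_eq {G : Type} [Group G] [Finite G] (H : Subgroup G) (π : H →* Q)
    (hπ : Function.Surjective π) :
    up H π (ind (⊥ : Subgroup Q) (fun _ => (1 : ℂ)))
      = ind (π.ker.map H.subtype) (fun _ => (1 : ℂ)) := up_ind H π hπ ⊥ _

end group

namespace Data

/-- **Order at most two** over the field `L`. -/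
theorem over_two (hM : MonomialTheorem) (hS : SymplecticParity) {F₀ : Type} [Field F₀] [NumberField F₀] [IsGalois ℚ F₀] (D : Data F₀) (cm : D.CM)
    (H : Subgroup D.G) {Q : Type} [Group Q] [Finite Q] (π : H →* Q) (hπ : Function.Surjective π)
    {ℓ₀ : ℂ → ℂ} (hℓ₀ : D.IsL (ind (π.ker.map H.subtype) (fun _ => 1)) ℓ₀)
    (h2 : meromorphicOrderAt ℓ₀ 1 ≤ 2)
    (E : Type) [Field E] [NumberField E] (n : ℕ) (ρ : Q →* Matrix (Fin n) (Fin n) E)
    (m : ℕ) (σ : D.G →* Matrix (Fin m) (Fin m) E)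
    (hσ : ∀ g, (σ g).trace = ind H (fun h => (ρ (π h)).trace) g) : D.Deligne σ := by
  classical
  refine bridgeQ hM D cm H π hπ (fun E _ _ ζ hζ ℓ P hL hP hup hmon n ρ => ?_) E n ρ m σ hσ
  obtain ⟨τ₀⟩ : Nonempty (E →+* ℂ) := inferInstance
  obtain ⟨deg, hdeg⟩ := exists_degQ (Q := Q)
  refine main_two (L := fun _ : E →+* ℂ => ℓ) (P := fun _ => P) (c := 1) hζ (fun _ => hL)
    (fun _ => hP) hmon τ₀ hdeg ?_ ?_ ρ
  · have h3 := hup _ _ (regQ_decomp hdeg)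
    rw [ker_eq H π hπ] at h3
    rw [meromorphicOrderAt_congr (h3.unique hℓ₀ 1)]
    exact h2
  · intro U f hf m hm h1
    have h3 := hup _ _ hm
    rw [up_ind H π hπ] at h3
    obtain ⟨k, hk⟩ := hS _ D cm (preG H π U) (f.comp (preGHom H π U))
      (hf.comp (preG_surj H π hπ U)) _ h3
    rw [h1] at hk
    have h5 : (1 : ℤ) = 2 * k := by exact_mod_cast hk
    omega

/-- **Small growth** in the extension `L / k`. -/
theorem over_small (hM : MonomialTheorem) {F₀ : Type} [Field F₀] [NumberField F₀] [IsGalois ℚ F₀] (D : Data F₀) (cm : D.CM)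
    (H : Subgroup D.G) {Q : Type} [Group Q] [Finite Q] (π : H →* Q) (hπ : Function.Surjective π)
    (N : Subgroup Q) [N.Normal] (hN : Group.IsSolvable N)
    (hmono : ∀ χ ∈ Irr Q, (∀ k ∈ ⁅N, N⁆, χ k = χ 1) →
      ∃ (U : Subgroup Q) (ψ : U →* ℂˣ), χ = ind U (fun u => ((ψ u : ℂˣ) : ℂ)))
    (lam : N →* ℂˣ) {ℓ₀ ℓ₁ : ℂ → ℂ} (hℓ₀ : D.IsL (ind (π.ker.map H.subtype) (fun _ => 1)) ℓ₀)
    (hℓ₁ : D.IsL (ind H (fun h => ind N (fun x => ((lam x : ℂˣ) : ℂ)) (π h))) ℓ₁)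
    (hz : ∀ p : ℕ, p.Prime → p ∣ Nat.card N →
      meromorphicOrderAt ℓ₀ 1 < meromorphicOrderAt ℓ₁ 1 + p)
    (E : Type) [Field E] [NumberField E] (n : ℕ) (ρ : Q →* Matrix (Fin n) (Fin n) E)
    (m : ℕ) (σ : D.G →* Matrix (Fin m) (Fin m) E)
    (hσ : ∀ g, (σ g).trace = ind H (fun h => (ρ (π h)).trace) g) : D.Deligne σ := by
  classical
  refine bridgeQ hM D cm H π hπ (fun E _ _ ζ hζ ℓ P hL hP hup hmon n ρ => ?_) E n ρ m σ hσ
  obtain ⟨τ₀⟩ : Nonempty (E →+* ℂ) := inferInstance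
  obtain ⟨deg, hdeg⟩ := exists_degQ (Q := Q)
  obtain ⟨m, hm⟩ := ind_isDecomp N lam
  refine main_small (L := fun _ : E →+* ℂ => ℓ) (P := fun _ => P) (c := 1) hζ (fun _ => hL)
    (fun _ => hP) (fun U ψ _ => hmon U ψ) τ₀ hdeg N hN lam hm ?_ ?_ ρ
  · intro p hp hd
    have h3 := hup _ _ (regQ_decomp hdeg)
    rw [ker_eq H π hπ] at h3
    have h4 := hup _ _ hm
    rw [meromorphicOrderAt_congr (h3.unique hℓ₀ 1), meromorphicOrderAt_congr (h4.unique hℓ₁ 1)]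
    exact hz p hp hd
  · intro W _ _ _ σ hσ
    have hσ' : ∀ k ∈ ⁅N, N⁆, σ k = 1 := fun k hk => LinearMap.ext fun v => hσ k hk v
    have hf := base_change τ₀ σ
    have h1 := closure_inv ⁅N, N⁆ hf (fun g k hk => by
      change τ₀ (LinearMap.trace E W (σ (g * k))) = τ₀ (LinearMap.trace E W (σ g))
      rw [map_mul, hσ' k hk, mul_one])
    have h2 : AddSubmonoid.closure {χ : Q → ℂ | χ ∈ Irr Q ∧ ∀ k ∈ ⁅N, N⁆, χ k = χ 1}
        ≤ MonPA Q := by
      rw [AddSubmonoid.closure_le]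
      rintro χ ⟨hχ, h3⟩
      exact AddSubmonoid.subset_closure (hmono χ hχ h3)
    obtain ⟨fa, ea, ha1, ha2⟩ := monA_del (L := fun _ : E →+* ℂ => ℓ) (P := fun _ => P) (c := 1)
      hζ (fun _ => hL) (fun _ => hP) hmon τ₀ (h2 h1)
    have h3 : σ.character = fa := by
      funext g
      apply τ₀.injective
      rw [ha1]
    rw [h3]
    exact ha2.deligne

/-- **Small growth** in a solvable extension `L / k`. -/
theorem over_solvable (hM : MonomialTheorem) {F₀ : Type} [Field F₀] [NumberField F₀] [IsGalois ℚ F₀] (D : Data F₀) (cm : D.CM)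
    (H : Subgroup D.G) {Q : Type} [Group Q] [Finite Q] (π : H →* Q) (hπ : Function.Surjective π)
    (hQ : Group.IsSolvable Q) (lam : Q →* ℂˣ) {ℓ₀ ℓ₁ : ℂ → ℂ}
    (hℓ₀ : D.IsL (ind (π.ker.map H.subtype) (fun _ => 1)) ℓ₀)
    (hℓ₁ : D.IsL (ind H (fun h => ((lam (π h) : ℂˣ) : ℂ))) ℓ₁)
    (hz : ∀ p : ℕ, p.Prime → p ∣ Nat.card Q →
      meromorphicOrderAt ℓ₀ 1 < meromorphicOrderAt ℓ₁ 1 + p)
    (E : Type) [Field E] [NumberField E] (n : ℕ) (ρ : Q →* Matrix (Fin n) (Fin n) E)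
    (m : ℕ) (σ : D.G →* Matrix (Fin m) (Fin m) E)
    (hσ : ∀ g, (σ g).trace = ind H (fun h => (ρ (π h)).trace) g) : D.Deligne σ := by
  classical
  have hN : Group.IsSolvable (⊤ : Subgroup Q) := inferInstance
  have h1 : ind (⊤ : Subgroup Q) (fun x => (((lam.comp (⊤ : Subgroup Q).subtype) x : ℂˣ) : ℂ))
      = fun q => ((lam q : ℂˣ) : ℂ) := by
    have : Fintype Q := Fintype.ofFinite Q
    funext g
    rw [ind_eq]
    have h2 : ∀ x : Q, ext (⊤ : Subgroup Q)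
        (fun x => (((lam.comp (⊤ : Subgroup Q).subtype) x : ℂˣ) : ℂ)) (x⁻¹ * g * x)
        = ((lam g : ℂˣ) : ℂ) := by
      intro x
      rw [ext_mem _ _ (Subgroup.mem_top _)]
      change ((lam (x⁻¹ * g * x) : ℂˣ) : ℂ) = _
      rw [map_mul, map_mul, map_inv, mul_comm, ← mul_assoc, mul_inv_cancel, one_mul]
    rw [Finset.sum_congr rfl (fun x _ => h2 x), Finset.sum_const, Finset.card_univ, nsmul_eq_mul,
      Subgroup.card_top, ← Nat.card_eq_fintype_card, ← mul_assoc, inv_mul_cancel₀ card_ne, one_mul]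
  refine over_small hM D cm H π hπ ⊤ hN (fun χ hχ h => ?_)
    (lam.comp (⊤ : Subgroup Q).subtype) hℓ₀ (by rw [h1]; exact hℓ₁)
    (fun p hp hd => hz p hp (by rwa [Subgroup.card_top] at hd)) E n ρ m σ hσ
  exact mono_of_commutator hχ h

end Data

end Pool.Agent.U213.EC
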