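import Mathlib
import Pool.Agent.U213.EC.OverMain

/-!
# Abelian varieties which are twisted powers of CM elliptic curves, and their twists by characters
-/

set_option autoImplicit false
set_option linter.unusedSectionVars false

open Filter Topology

namespace Pool.Agent.U213.EC

open Pool.Agent.R389 Pool.Agent.H302R2 Pool.Agent.H541R3.ART Pool.Agent.W446.AS

/-- the tensor product of a rational representation and a linear character -/
noncomputable def tw {G : Type} [Group G] {E : Type} [Field E] [CharZero E] {m : ℕ}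
    (σ : G →* Matrix (Fin m) (Fin m) ℚ) (ψ : G →* Eˣ) : G →* Matrix (Fin m) (Fin m) E where
  toFun g := ((ψ g : Eˣ) : E) • (σ g).map (algebraMap ℚ E)
  map_one' := by simp
  map_mul' a b := by
    rw [map_mul, map_mul, Matrix.map_mul, Units.val_mul, Matrix.smul_mul, Matrix.mul_smul, smul_smul]

lemma tw_trace {G : Type} [Group G] {E : Type} [Field E] [CharZero E] {m : ℕ}
    (σ : G →* Matrix (Fin m) (Fin m) ℚ) (ψ : G →* Eˣ) (g : G) :
    (tw σ ψ g).trace = ((ψ g : Eˣ) : E) * algebraMap ℚ E (σ g).trace := by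
  change (((ψ g : Eˣ) : E) • (σ g).map (algebraMap ℚ E)).trace = _
  rw [Matrix.trace_smul, smul_eq_mul, Matrix.trace, Matrix.trace, map_sum]
  rfl

lemma tw_det {G : Type} [Group G] {E : Type} [Field E] [CharZero E] {m : ℕ}
    (σ : G →* Matrix (Fin m) (Fin m) ℚ) (ψ : G →* Eˣ) (g : G) :
    (tw σ ψ g).det = ((ψ g : Eˣ) : E) ^ m * algebraMap ℚ E (σ g).det := by
  change (((ψ g : Eˣ) : E) • (σ g).map (algebraMap ℚ E)).det = _
  rw [Matrix.det_smul, Fintype.card_fin]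
  congr 1
  exact (RingHom.map_det (algebraMap ℚ E) (σ g)).symm

namespace Data

/-- **Twisted powers of CM elliptic curves.** -/
theorem twisted (hM : MonomialTheorem) (hS : SymplecticParity) {F₀ : Type} [Field F₀]
    [NumberField F₀] [IsGalois ℚ F₀] (D : Data F₀) (cm : D.CM)
    (H : Subgroup D.G) {Q : Type} [Group Q] [Finite Q] (π : H →* Q) (hπ : Function.Surjective π)
    {ℓ₀ : ℂ → ℂ} (hℓ₀ : D.IsL (ind (π.ker.map H.subtype) (fun _ => 1)) ℓ₀)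
    (h2 : meromorphicOrderAt ℓ₀ 1 ≤ 2)
    (n : ℕ) (ρ : Q →* Matrix (Fin n) (Fin n) ℚ)
    (m : ℕ) (σ : D.G →* Matrix (Fin m) (Fin m) ℚ)
    (hσ : ∀ g, (σ g).trace = ind H (fun h => (ρ (π h)).trace) g)
    (E : Type) [Field E] [NumberField E] (ψ : D.G →* Eˣ) (ψQ : Q →* Eˣ)
    (hψ : ∀ h : H, ψ h = ψQ (π h)) (hc : ψ D.c = 1) :
    ∃ e : E, ∀ τ : E →+* ℂ, ∃ ℓ : ℂ → ℂ,
      D.IsL (fun g => τ ((ψ g : Eˣ) : E) * (((σ g).trace : ℚ) : ℂ)) ℓ ∧
      Tendsto ℓ (𝓝[≠] 1) (𝓝 (τ e * (D.R (fun g => τ ((ψ g : Eˣ) : E)) ^ m *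
        D.period ((algebraMap ℚ ℂ).mapMatrix.toMonoidHom.comp σ)))) := by
  classical
  have htr : ∀ g, (tw σ ψ g).trace = ind H (fun h => (tw ρ ψQ (π h)).trace) g := by
    intro g
    have h1 : (fun h : H => (tw ρ ψQ (π h)).trace)
        = fun h : H => algebraMap ℚ E (ρ (π h)).trace * (fun g => ((ψ g : Eˣ) : E)) (h : D.G) := by
      funext h
      rw [tw_trace, ← hψ h, mul_comm]
    rw [tw_trace, h1, ind_mul H _ (F := fun g => ((ψ g : Eˣ) : E)) ?_ g, hσ, mul_comm]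
    · congr 1
      exact ind_map (algebraMap ℚ E) H _ g
    · intro g x
      change ((ψ (x * g * x⁻¹) : Eˣ) : E) = ((ψ g : Eˣ) : E)
      rw [map_mul, map_mul, map_inv, mul_comm, ← mul_assoc, inv_mul_cancel, one_mul]
  obtain ⟨e, he⟩ := over_two hM hS D cm H π hπ hℓ₀ h2 E n (tw ρ ψQ) m (tw σ ψ) htr
  -- the resolvents
  let dσ : D.G →* Eˣ := (Matrix.detMonoidHom.comp
    ((algebraMap ℚ E).mapMatrix.toMonoidHom.comp σ)).toHomUnits
  have hdσ : ∀ g, ((dσ g : Eˣ) : E) = algebraMap ℚ E (σ g).det := by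
    intro g
    change ((σ g).map (algebraMap ℚ E)).det = _
    exact (RingHom.map_det (algebraMap ℚ E) (σ g)).symm
  let δ : D.G →* Eˣ := ψ ^ m * dσ
  have hx : ∀ mu : (F₀ ≃ₐ[ℚ] F₀) →* ℂˣ, ∑ σ, (mu σ : ℂ) * D.ι (σ D.x) ≠ 0 := by
    intro mu
    have := D.x_ne mu
    rwa [finsum_eq_sum_of_fintype] at this
  obtain ⟨u, hu0, hu⟩ := prod_res D.ι D.x hx (Finset.univ : Finset Bool)
    (fun i => cond i ψ dσ) (fun i => cond i m 1) δ (fun g => by
      rw [Fintype.prod_bool]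
      change ψ g ^ m * dσ g ^ 1 = (ψ ^ m * dσ) g
      rw [pow_one, MonoidHom.mul_apply, MonoidHom.pow_apply])
  refine ⟨e / u, fun τ => ?_⟩
  obtain ⟨ℓ, h1, h3⟩ := he τ
  refine ⟨ℓ, ?_, ?_⟩
  · have h4 : (fun g => τ (tw σ ψ g).trace)
        = fun g => τ ((ψ g : Eˣ) : E) * (((σ g).trace : ℚ) : ℂ) := by
      funext g
      rw [tw_trace, map_mul]
      congr 1
      simp
    rwa [h4] at h1
  · have h4 : τ e * D.period (τ.mapMatrix.toMonoidHom.comp (tw σ ψ))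
        = τ (e / u) * (D.R (fun g => τ ((ψ g : Eˣ) : E)) ^ m *
          D.period ((algebraMap ℚ ℂ).mapMatrix.toMonoidHom.comp σ)) := by
      have h5 := hu τ
      rw [Fintype.prod_bool] at h5
      change (∑ σ, τ ((ψ σ : Eˣ) : E) * D.ι (σ D.x)) ^ m *
        (∑ σ, τ ((dσ σ : Eˣ) : E) * D.ι (σ D.x)) ^ 1
        = τ u * ∑ σ, τ ((δ σ : Eˣ) : E) * D.ι (σ D.x) at h5
      have h6 : D.R (fun g => ((τ.mapMatrix.toMonoidHom.comp (tw σ ψ)) g).det)
          = ∑ g, τ ((δ g : Eˣ) : E) * D.ι (g D.x) := by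
        rw [R_eq]
        refine Finset.sum_congr rfl fun g _ => ?_
        congr 1
        change (bc τ (tw σ ψ) g).det = _
        rw [bc_det, tw_det]
        congr 1
        change _ = (((ψ ^ m * dσ) g : Eˣ) : E)
        rw [MonoidHom.mul_apply, MonoidHom.pow_apply, Units.val_mul, Units.val_pow_eq_pow_val, hdσ]
      have h7 : D.R (fun g => (((algebraMap ℚ ℂ).mapMatrix.toMonoidHom.comp σ) g).det)
          = ∑ g, τ ((dσ g : Eˣ) : E) * D.ι (g D.x) := by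
        rw [R_eq]
        refine Finset.sum_congr rfl fun g _ => ?_
        congr 1
        change (bc (algebraMap ℚ ℂ) σ g).det = _
        rw [bc_det, hdσ]
        simp
      have h8 : (τ.mapMatrix.toMonoidHom.comp (tw σ ψ)) D.c
          = ((algebraMap ℚ ℂ).mapMatrix.toMonoidHom.comp σ) D.c := by
        ext i j
        change τ (((ψ D.c : Eˣ) : E) * algebraMap ℚ E (σ D.c i j)) = algebraMap ℚ ℂ (σ D.c i j)
        rw [hc, Units.val_one, one_mul]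
        simp
      rw [period, period, h6, h7, h8, map_div₀, R_eq]
      have hu' : τ u ≠ 0 := (map_ne_zero τ).mpr hu0
      rw [pow_one] at h5
      rw [div_mul_eq_mul_div, eq_div_iff hu']
      linear_combination (-(τ e * D.Ωp ^ Polynomial.rootMultiplicity 1
        (((algebraMap ℚ ℂ).mapMatrix.toMonoidHom.comp σ) D.c).charpoly *
        D.Ωm ^ Polynomial.rootMultiplicity (-1)
        (((algebraMap ℚ ℂ).mapMatrix.toMonoidHom.comp σ) D.c).charpoly)) * h5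
    rw [h4] at h3
    exact h3

/-- The product of the resolvent of `ψ` and of a Gauss sum of `ψ⁻¹` is in the coefficient field. -/
lemma res_mul_gauss {F₀ : Type} [Field F₀] [NumberField F₀] [IsGalois ℚ F₀] (D : Data F₀) (y : F₀)
    {E : Type} [Field E] [CharZero E] (ψ : D.G →* Eˣ) (τ : E →+* ℂ) :
    D.R (fun g => τ ((ψ g : Eˣ) : E)) * ∑ g : D.G, τ (((ψ g)⁻¹ : Eˣ) : E) * D.ι (g y)
      = τ (∑ k : D.G, ((ψ k : Eˣ) : E) * algebraMap ℚ E (Algebra.trace ℚ F₀ (D.x * k⁻¹ y))) := by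
  rw [R_eq, Finset.sum_mul, map_sum]
  have h1 : ∀ k : D.G, τ (((ψ k : Eˣ) : E) * algebraMap ℚ E (Algebra.trace ℚ F₀ (D.x * k⁻¹ y)))
      = ∑ g : D.G, τ ((ψ k : Eˣ) : E) * D.ι (g (D.x * k⁻¹ y)) := by
    intro k
    rw [map_mul, ← Finset.mul_sum, ← map_sum]
    congr 1
    have h2 := trace_eq_sum_automorphisms (K := ℚ) (L := F₀) (D.x * k⁻¹ y)
    change _ = D.ι (∑ g : F₀ ≃ₐ[ℚ] F₀, g (D.x * k⁻¹ y))
    rw [← h2]
    simp
  rw [Finset.sum_congr rfl (fun k _ => h1 k), Finset.sum_comm]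
  refine Finset.sum_congr rfl fun g _ => ?_
  rw [Finset.mul_sum]
  refine Fintype.sum_equiv ((Equiv.inv D.G).trans (Equiv.mulRight g)) _ _ fun h => ?_
  simp only [Equiv.trans_apply, Equiv.inv_apply, Equiv.coe_mulRight]
  have h3 : ((h⁻¹ * g)⁻¹ : D.G) = g⁻¹ * h := by group
  rw [map_mul ψ, map_inv, map_mul g, h3, Units.val_mul, map_mul, map_mul D.ι]
  have h4 : g ((g⁻¹ * h : D.G) y) = h y := by
    change g (g⁻¹ (h y)) = h y
    exact g.apply_symm_apply (h y)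
  rw [h4]
  ring

/-- **Twisted powers of CM elliptic curves**, with Gauss sums. -/
theorem twisted' (hM : MonomialTheorem) (hS : SymplecticParity) {F₀ : Type} [Field F₀]
    [NumberField F₀] [IsGalois ℚ F₀] (D : Data F₀) (cm : D.CM)
    (H : Subgroup D.G) {Q : Type} [Group Q] [Finite Q] (π : H →* Q) (hπ : Function.Surjective π)
    {ℓ₀ : ℂ → ℂ} (hℓ₀ : D.IsL (ind (π.ker.map H.subtype) (fun _ => 1)) ℓ₀)
    (h2 : meromorphicOrderAt ℓ₀ 1 ≤ 2)
    (n : ℕ) (ρ : Q →* Matrix (Fin n) (Fin n) ℚ)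
    (m : ℕ) (σ : D.G →* Matrix (Fin m) (Fin m) ℚ)
    (hσ : ∀ g, (σ g).trace = ind H (fun h => (ρ (π h)).trace) g)
    (E : Type) [Field E] [NumberField E] (ψ : D.G →* Eˣ) (ψQ : Q →* Eˣ)
    (hψ : ∀ h : H, ψ h = ψQ (π h)) (hc : ψ D.c = 1) (y : F₀) :
    ∃ e : E, ∀ τ : E →+* ℂ, ∃ ℓ : ℂ → ℂ,
      D.IsL (fun g => τ ((ψ g : Eˣ) : E) * (((σ g).trace : ℚ) : ℂ)) ℓ ∧
      Tendsto (fun s => (∑ᶠ g : D.G, τ (((ψ g)⁻¹ : Eˣ) : E) * D.ι (g y)) ^ m * ℓ s /
        D.period ((algebraMap ℚ ℂ).mapMatrix.toMonoidHom.comp σ)) (𝓝[≠] 1) (𝓝 (τ e)) := by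
  obtain ⟨e, he⟩ := twisted hM hS D cm H π hπ hℓ₀ h2 n ρ m σ hσ E ψ ψQ hψ hc
  refine ⟨e * (∑ k : D.G, ((ψ k : Eˣ) : E) *
    algebraMap ℚ E (Algebra.trace ℚ F₀ (D.x * k⁻¹ y))) ^ m, fun τ => ?_⟩
  obtain ⟨ℓ, h1, h3⟩ := he τ
  refine ⟨ℓ, h1, ?_⟩
  have h4 := (h3.const_mul ((∑ᶠ g : D.G, τ (((ψ g)⁻¹ : Eˣ) : E) * D.ι (g y)) ^ m)).div_const
    (D.period ((algebraMap ℚ ℂ).mapMatrix.toMonoidHom.comp σ))
  have h5 : (∑ᶠ g : D.G, τ (((ψ g)⁻¹ : Eˣ) : E) * D.ι (g y)) ^ m *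
      (τ e * (D.R (fun g => τ ((ψ g : Eˣ) : E)) ^ m *
        D.period ((algebraMap ℚ ℂ).mapMatrix.toMonoidHom.comp σ))) /
        D.period ((algebraMap ℚ ℂ).mapMatrix.toMonoidHom.comp σ)
      = τ (e * (∑ k : D.G, ((ψ k : Eˣ) : E) *
        algebraMap ℚ E (Algebra.trace ℚ F₀ (D.x * k⁻¹ y))) ^ m) := by
    rw [map_mul, map_pow, ← res_mul_gauss D y ψ τ, finsum_eq_sum_of_fintype, mul_pow,
      ← mul_assoc, ← mul_assoc, mul_div_assoc,
      div_self (D.period_ne ((algebraMap ℚ ℂ).mapMatrix.toMonoidHom.comp σ))]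
    ring
  rwa [h5] at h4

end Data

end Pool.Agent.U213.EC
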