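import Mathlib
import Pool.Agent.U213.EC.Twist

/-!
# Gauss sums of Dirichlet characters and twisted powers of CM elliptic curves
-/

set_option autoImplicit false
set_option linter.unusedSectionVars false

open Filter Topology

namespace Pool.Agent.U213.EC

open Pool.Agent.R389 Pool.Agent.H302R2 Pool.Agent.H541R3.ART Pool.Agent.W446.AS

/-- the Gauss sum `∑_a λ(a) exp (2 π i a / f)` over the units `a` modulo `f` -/
noncomputable def gaussSum' (f : ℕ) (lam : (ZMod f)ˣ → ℂ) : ℂ :=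
  ∑ᶠ a : (ZMod f)ˣ, lam a * Complex.exp (2 * Real.pi * Complex.I * ((a : ZMod f).val : ℂ) / (f : ℂ))

lemma sum_fibres {G H : Type} [Group G] [Fintype G] [Group H] [Fintype H]
    (φ : G →* H) (hφ : Function.Surjective φ) :
    ∃ N : ℕ, N ≠ 0 ∧ ∀ F : H → ℂ, ∑ g, F (φ g) = N * ∑ h, F h := by
  classical
  refine ⟨(Finset.univ.filter fun g => φ g = 1).card, ?_, fun F => ?_⟩
  · exact Finset.card_ne_zero.mpr ⟨1, by simp⟩
  · rw [← Finset.sum_fiberwise Finset.univ φ (fun g => F (φ g)), Finset.mul_sum]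
    refine Finset.sum_congr rfl fun h _ => ?_
    have h1 : ∀ g ∈ Finset.univ.filter (fun g => φ g = h), F (φ g) = F h := by
      intro g hg
      rw [(Finset.mem_filter.mp hg).2]
    rw [Finset.sum_congr rfl h1, Finset.sum_const, nsmul_eq_mul]
    congr 2
    exact MonoidHom.card_fiber_eq_of_mem_range φ (hφ h) (hφ 1)

namespace Data

variable {F₀ : Type} [Field F₀] [NumberField F₀] [IsGalois ℚ F₀] (D : Data F₀)

lemma gauss_eq {f : ℕ} (hf : f ≠ 0) {ζ : F₀}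
    (hζ : D.ι ζ = Complex.exp (2 * Real.pi * Complex.I / f))
    {E : Type} [Field E] (χ : (ZMod f)ˣ →* Eˣ) (ψ : D.G →* Eˣ)
    (h : ∀ (g : D.G) (u : (ZMod f)ˣ), g ζ = ζ ^ (u : ZMod f).val → ψ g = χ u) :
    ∃ N : ℕ, N ≠ 0 ∧ ∀ τ : E →+* ℂ, ∑ᶠ g : D.G, τ (((ψ g)⁻¹ : Eˣ) : E) * D.ι (g ζ)
      = N * gaussSum' f (fun a => τ (((χ a)⁻¹ : Eˣ) : E)) := by
  classical
  have : NeZero f := ⟨hf⟩
  have hp : IsPrimitiveRoot (D.ι ζ) f := by
    rw [hζ]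
    exact Complex.isPrimitiveRoot_exp f hf
  have hp' : IsPrimitiveRoot ζ f := IsPrimitiveRoot.of_map_of_injective hp D.ι.injective
  have hsurj : Function.Surjective (hp'.autToPow ℚ (S := F₀)) := by
    intro u
    have h1 : IsPrimitiveRoot (ζ ^ (u : ZMod f).val) f :=
      hp'.pow_of_coprime _ (ZMod.val_coe_unit_coprime u)
    have h2 : minpoly ℚ (ζ ^ (u : ZMod f).val) = minpoly ℚ ζ := by
      rw [← Polynomial.cyclotomic_eq_minpoly_rat hp' (Nat.pos_of_ne_zero hf),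
        ← Polynomial.cyclotomic_eq_minpoly_rat h1 (Nat.pos_of_ne_zero hf)]
    obtain ⟨g, hg⟩ := (Normal.minpoly_eq_iff_mem_orbit F₀).mp h2
    refine ⟨g, ?_⟩
    have h3 := hp'.autToPow_spec ℚ g
    have hg' : g ζ = ζ ^ (u : ZMod f).val := hg
    rw [hg'] at h3
    apply Units.ext
    have h4 := hp'.pow_inj (ZMod.val_lt _) (ZMod.val_lt _) h3
    exact ZMod.val_injective f h4
  obtain ⟨N, hN, hsum⟩ := sum_fibres (hp'.autToPow ℚ (S := F₀)) hsurj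
  refine ⟨N, hN, fun τ => ?_⟩
  rw [finsum_eq_sum_of_fintype, gaussSum', finsum_eq_sum_of_fintype, ← hsum]
  refine Finset.sum_congr rfl fun g _ => ?_
  have h3 := hp'.autToPow_spec ℚ g
  rw [h g _ h3.symm]
  congr 1
  have h4 : g ζ = ζ ^ ((hp'.autToPow ℚ g : (ZMod f)ˣ) : ZMod f).val := h3.symm
  rw [h4, map_pow, hζ, ← Complex.exp_nat_mul]
  congr 1
  ring

/-- **Twisted powers of CM elliptic curves**, with Gauss sums of Dirichlet characters. -/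
theorem twisted'' (hM : MonomialTheorem) (hS : SymplecticParity) (cm : D.CM)
    (H : Subgroup D.G) {Q : Type} [Group Q] [Finite Q] (π : H →* Q) (hπ : Function.Surjective π)
    {ℓ₀ : ℂ → ℂ} (hℓ₀ : D.IsL (ind (π.ker.map H.subtype) (fun _ => 1)) ℓ₀)
    (h2 : meromorphicOrderAt ℓ₀ 1 ≤ 2)
    (n : ℕ) (ρ : Q →* Matrix (Fin n) (Fin n) ℚ)
    (m : ℕ) (σ : D.G →* Matrix (Fin m) (Fin m) ℚ)
    (hσ : ∀ g, (σ g).trace = ind H (fun h => (ρ (π h)).trace) g)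
    {f : ℕ} (hf : f ≠ 0) {ζ : F₀} (hζ : D.ι ζ = Complex.exp (2 * Real.pi * Complex.I / f))
    (E : Type) [Field E] [NumberField E] (χ : (ZMod f)ˣ →* Eˣ) (ψ : D.G →* Eˣ)
    (h : ∀ (g : D.G) (u : (ZMod f)ˣ), g ζ = ζ ^ (u : ZMod f).val → ψ g = χ u)
    (ψQ : Q →* Eˣ) (hψ : ∀ h : H, ψ h = ψQ (π h)) (hc : ψ D.c = 1) :
    ∃ e : E, ∀ τ : E →+* ℂ, ∃ ℓ : ℂ → ℂ,
      D.IsL (fun g => τ ((ψ g : Eˣ) : E) * (((σ g).trace : ℚ) : ℂ)) ℓ ∧
      Tendsto (fun s => gaussSum' f (fun a => τ (((χ a)⁻¹ : Eˣ) : E)) ^ m * ℓ s /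
        D.period ((algebraMap ℚ ℂ).mapMatrix.toMonoidHom.comp σ)) (𝓝[≠] 1) (𝓝 (τ e)) := by
  obtain ⟨e, he⟩ := twisted' hM hS D cm H π hπ hℓ₀ h2 n ρ m σ hσ E ψ ψQ hψ hc ζ
  obtain ⟨N, hN, hg⟩ := D.gauss_eq hf hζ χ ψ h
  refine ⟨e / N ^ m, fun τ => ?_⟩
  obtain ⟨ℓ, h1, h3⟩ := he τ
  refine ⟨ℓ, h1, ?_⟩
  have h4 := h3.div_const ((N : ℂ) ^ m)
  have hN' : (N : ℂ) ^ m ≠ 0 := pow_ne_zero _ (Nat.cast_ne_zero.mpr hN)
  rw [map_div₀, map_pow, map_natCast]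
  refine h4.congr fun s => ?_
  rw [hg τ, mul_pow, div_div, mul_comm (D.period _), ← div_div]
  congr 1
  rw [mul_assoc, mul_div_assoc, mul_comm, div_mul_cancel₀ _ hN']

end Data

end Pool.Agent.U213.EC
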